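import Pool.Agent.AXM.Cld
import Pool.Agent.ALB.Lim

/-! # AXM ASY: the asymptotic form of the square root inequality -/

set_option autoImplicit false

namespace Pool.Agent.AXM

open Finset Pool.Agent.ALB

/-- For all `κ, η, γ > 0` there is `n₀` such that for every graph `G` on `n ≥ n₀` vertices with
`∑ wt G η ≥ κ n` and every `t` with `∑ wt G η ≥ (1 + γ) t` every drawing of `G` has at least
`crK t` crossings. -/
theorem asy {κ η γ : ℝ} (hκ : 0 < κ) (hη : 0 < η) (hγ : 0 < γ) :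
    ∃ n₀ : ℕ, ∀ (V : Type) (_ : Fintype V) (G : SimpleGraph V) (D : Drw G) (t : ℕ),
      D.NoAdj → n₀ ≤ Fintype.card V → κ * (Fintype.card V : ℝ) ≤ ∑ v, wt G η v →
      (1 + γ) * (t : ℝ) ≤ ∑ v, wt G η v → crK t ≤ D.cr := by
  obtain ⟨c, hc0, hck, hlim⟩ := exists_limit
  rcases hc0.eq_or_lt with hc | hc
  · refine ⟨0, ?_⟩
    intro V _ G D t _ _ _ _
    have h1 := hck t
    rw [← hc, zero_mul] at h1
    have h2 : crK t ≤ 0 := by exact_mod_cast h1
    omega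
  · set δ : ℝ := γ / (1 + 4 * γ) with hδd
    have hδ : 0 < δ := by positivity
    have hδγ : δ * (1 + 4 * γ) = γ := by
      rw [hδd]
      field_simp
    have hδ1 : δ ≤ 1 / 4 := by
      rw [hδd, div_le_div_iff₀ (by positivity) (by norm_num)]
      linarith
    have hδg : δ ≤ γ := by
      rw [hδd]
      exact div_le_self hγ.le (by linarith)
    obtain ⟨a₀, ha₀, ha⟩ := hlim (δ * c) (by positivity)
    set B := B0 1 κ η with hB
    set a := max a₀ (⌈|B| / δ⌉₊ + 4) with haD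
    have ha4 : 4 ≤ a := ha₀.trans (le_max_left _ _)
    have haa : (c - δ * c) * (a.choose 4 : ℝ) ≤ (crK a : ℝ) := ha a (le_max_left _ _)
    have haR : |B| / δ + 4 ≤ (a : ℝ) := by
      have h1 : ⌈|B| / δ⌉₊ + 4 ≤ a := le_max_right _ _
      have h2 : ((⌈|B| / δ⌉₊ : ℕ) : ℝ) + 4 ≤ a := by exact_mod_cast h1
      have h3 := Nat.le_ceil (|B| / δ)
      linarith
    have hBδ : 0 ≤ |B| / δ := by positivity
    have ha3 : 0 < (a : ℝ) - 3 := by linarith
    have hBa : B / ((a : ℝ) - 3) ≤ δ := by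
      rw [div_le_iff₀ ha3]
      have h1 := le_abs_self B
      have h2 : |B| = δ * (|B| / δ) := by field_simp
      nlinarith
    set M := (a : ℝ) ^ 4 * (2 / κ + 1 / η) with hM
    refine ⟨max 1 ⌈M / δ⌉₊, ?_⟩
    intro V _ G D t hD hn hK hKt
    have hV : 0 < Fintype.card V := lt_of_lt_of_le one_pos ((le_max_left _ _).trans hn)
    have hV0 : (0 : ℝ) < Fintype.card V := by exact_mod_cast hV
    have hnM : M / δ ≤ Fintype.card V := by
      have h1 : ⌈M / δ⌉₊ ≤ Fintype.card V := (le_max_right _ _).trans hn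
      have h2 := Nat.le_ceil (M / δ)
      have h3 : ((⌈M / δ⌉₊ : ℕ) : ℝ) ≤ Fintype.card V := by exact_mod_cast h1
      linarith
    have hmix := sqrt_ineq D hD hκ hη hV ha4 hK
    set K := ∑ v, wt G η v with hKd
    have ht0 : (0 : ℝ) ≤ t := Nat.cast_nonneg _
    have hch : 0 < (a.choose 4 : ℝ) := by
      have : 0 < a.choose 4 := Nat.choose_pos ha4
      exact_mod_cast this
    have h1 : ((1 - δ) * c) / 24 ≤ (crK a : ℝ) / (24 * (a.choose 4 : ℝ)) := by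
      rw [div_le_div_iff₀ (by norm_num) (by positivity)]
      nlinarith
    have h2 : (1 + 4 * γ) * (t : ℝ) ^ 4 ≤ K ^ 4 := by
      have h3 : (1 + 4 * γ) ≤ (1 + γ) ^ 4 := by
        nlinarith [sq_nonneg γ, pow_pos hγ 3, pow_pos hγ 4]
      calc (1 + 4 * γ) * (t : ℝ) ^ 4 ≤ (1 + γ) ^ 4 * (t : ℝ) ^ 4 :=
            mul_le_mul_of_nonneg_right h3 (by positivity)
        _ = ((1 + γ) * (t : ℝ)) ^ 4 := by ring
        _ ≤ K ^ 4 := pow_le_pow_left₀ (by positivity) hKt 4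
    have h3 : 1 - δ ≤ 1 - M / (Fintype.card V : ℝ) := by
      have h4 : M / (Fintype.card V : ℝ) ≤ δ := by
        rw [div_le_iff₀ hV0]
        rw [div_le_iff₀ hδ] at hnM
        linarith
      linarith
    have h4 : (1 + B / ((a : ℝ) - 3)) * (D.cr : ℝ) ≤ (1 + δ) * (D.cr : ℝ) := by
      refine mul_le_mul_of_nonneg_right ?_ (Nat.cast_nonneg _)
      linarith
    have hδ2 : 0 ≤ 1 - δ := by linarith
    have h5 : ((1 - δ) * c) / 24 * ((1 + 4 * γ) * (t : ℝ) ^ 4) * (1 - δ) ≤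
        (crK a : ℝ) / (24 * (a.choose 4 : ℝ)) * K ^ 4 * (1 - M / (Fintype.card V : ℝ)) := by
      have h6 : 0 ≤ (crK a : ℝ) / (24 * (a.choose 4 : ℝ)) := by positivity
      have h7 : 0 ≤ K ^ 4 := by positivity
      refine mul_le_mul (mul_le_mul h1 h2 (by positivity) h6) h3 hδ2 (mul_nonneg h6 h7)
    have h6 : ((1 - δ) * c) / 24 * ((1 + 4 * γ) * (t : ℝ) ^ 4) * (1 - δ) ≤
        (1 + δ) * (D.cr : ℝ) := h5.trans (hmix.trans h4)
    have h7 : (1 + δ) ≤ (1 - δ) * (1 - δ) * (1 + 4 * γ) := by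
      have h8 : (1 - δ) * (1 - δ) * (1 + 4 * γ) = 1 + 4 * γ - 2 * (δ * (1 + 4 * γ)) +
          δ * (δ * (1 + 4 * γ)) := by ring
      rw [h8, hδγ]
      nlinarith
    have hk4 : (0 : ℝ) ≤ c * (t : ℝ) ^ 4 / 24 := by positivity
    have h8 : (1 + δ) * (c * (t : ℝ) ^ 4 / 24) ≤ (1 + δ) * (D.cr : ℝ) := by
      calc (1 + δ) * (c * (t : ℝ) ^ 4 / 24) ≤
          ((1 - δ) * (1 - δ) * (1 + 4 * γ)) * (c * (t : ℝ) ^ 4 / 24) :=
            mul_le_mul_of_nonneg_right h7 hk4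
        _ = ((1 - δ) * c) / 24 * ((1 + 4 * γ) * (t : ℝ) ^ 4) * (1 - δ) := by ring
        _ ≤ _ := h6
    have h9 : c * (t : ℝ) ^ 4 / 24 ≤ (D.cr : ℝ) := le_of_mul_le_mul_left h8 (by linarith)
    have h10 : (t.choose 4 : ℝ) ≤ (t : ℝ) ^ 4 / 24 := by
      have := Nat.choose_le_pow_div (α := ℝ) 4 t
      have h24 : ((Nat.factorial 4 : ℕ) : ℝ) = 24 := by norm_num [Nat.factorial]
      rwa [h24] at this
    have h11 : (crK t : ℝ) ≤ (D.cr : ℝ) := by
      calc (crK t : ℝ) ≤ c * (t.choose 4 : ℝ) := hck t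
        _ ≤ c * ((t : ℝ) ^ 4 / 24) := mul_le_mul_of_nonneg_left h10 hc.le
        _ = c * (t : ℝ) ^ 4 / 24 := by ring
        _ ≤ _ := h9
    exact_mod_cast h11

end Pool.Agent.AXM
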