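import Pool.Agent.AXM.Sum
import Pool.Agent.ALC.CrL

/-! # AXM BIG: the dense inequality for all numbers of vertices

For every `ε > 0` there is `t₀` such that for `t ≥ t₀` every graph `G` on `n` vertices with
`∑ sqrt ((2 d(v) - n) / n) ≥ (1 + ε) t` (negative numbers have square root `0`) has
`cr(G) ≥ cr(K_t)`.

Proof.  `n ≤ C t`: cut off the weights at a small `η`; this costs at most `sqrt η n ≤ (ε/2) t`, use
`asy`.  `n ≥ C t`: at least `t` vertices have degree more than `n / 2`, so `G` has at least `t n / 4`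
edges; use the crossing lemma. -/

set_option autoImplicit false

namespace Pool.Agent.AXM

open Finset Pool.Agent.ALB

/-- the case of many vertices -/
theorem big : ∃ C : ℕ, 0 < C ∧ ∃ t₀ : ℕ, ∀ (V : Type) (_ : Fintype V) (G : SimpleGraph V)
    (D : Drw G) (t : ℕ), D.NoAdj → t₀ ≤ t → t * Fintype.card V ≤ 4 * (ed G).card →
      C * t ≤ Fintype.card V → crK t ≤ D.cr := by
  by_cases hall : ∀ a, crK a = 0
  · refine ⟨1, one_pos, 0, ?_⟩
    intro V _ G D t _ _ _ _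
    rw [hall t]
    exact Nat.zero_le _
  push Not at hall
  obtain ⟨a, ha⟩ := hall
  obtain ⟨B, hB, hcr⟩ := Pool.Agent.ALC.crL ha
  refine ⟨2048 * B ^ 2, by positivity, 16 * B, ?_⟩
  intro V _ G D t hNA ht hE hn
  have hq1 : 8 * B * (t / (8 * B)) ≤ t := Nat.mul_div_le t (8 * B)
  have hq2 : t < 8 * B * (t / (8 * B) + 1) := by
    have h1 := Nat.div_add_mod t (8 * B)
    have h2 := Nat.mod_lt t (show 0 < 8 * B by omega)
    rw [Nat.mul_add, Nat.mul_one]
    omega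
  set q : ℕ := t / (8 * B) with hq
  have hq0 : 0 < q := by
    rw [hq]
    exact Nat.div_pos (by omega) (by omega)
  have h1 := hcr V inferInstance G D hNA q hq0
  have h1R : (q : ℝ) ^ 2 * ((ed G).card : ℝ) ≤ B * (Fintype.card V : ℝ) * (q : ℝ) ^ 3 + D.cr := by
    exact_mod_cast h1
  have hER : (t : ℝ) * (Fintype.card V : ℝ) ≤ 4 * ((ed G).card : ℝ) := by exact_mod_cast hE
  have hnR : 2048 * (B : ℝ) ^ 2 * (t : ℝ) ≤ (Fintype.card V : ℝ) := by exact_mod_cast hn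
  have hq1R : 8 * (B : ℝ) * (q : ℝ) ≤ t := by exact_mod_cast hq1
  have hq2R : (t : ℝ) ≤ 16 * (B : ℝ) * (q : ℝ) := by
    have h2 : t ≤ 16 * B * q := by nlinarith
    exact_mod_cast h2
  have hBR : (0 : ℝ) < B := by exact_mod_cast hB
  have hqR : (0 : ℝ) < q := by exact_mod_cast hq0
  have htR : (0 : ℝ) ≤ t := Nat.cast_nonneg _
  have hN : (0 : ℝ) ≤ (Fintype.card V : ℝ) := Nat.cast_nonneg _
  set n : ℝ := (Fintype.card V : ℝ) with hnd
  have h2 : n * (q : ℝ) ^ 2 * t ≤ 8 * (D.cr : ℝ) := by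
    have h3 : (q : ℝ) ^ 2 * ((t : ℝ) * n) ≤ (q : ℝ) ^ 2 * (4 * ((ed G).card : ℝ)) :=
      mul_le_mul_of_nonneg_left hER (by positivity)
    have h4 : n * (q : ℝ) ^ 2 * (8 * (B : ℝ) * (q : ℝ)) ≤ n * (q : ℝ) ^ 2 * t :=
      mul_le_mul_of_nonneg_left hq1R (by positivity)
    nlinarith
  have h3 : (t : ℝ) ^ 2 ≤ 256 * (B : ℝ) ^ 2 * (q : ℝ) ^ 2 := by
    calc (t : ℝ) ^ 2 ≤ (16 * (B : ℝ) * (q : ℝ)) ^ 2 := pow_le_pow_left₀ htR hq2R 2
      _ = _ := by ring
  have h4 : (t : ℝ) ^ 4 ≤ (D.cr : ℝ) := by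
    have h5 : 2048 * (B : ℝ) ^ 2 * (t : ℝ) ^ 4 ≤ 2048 * (B : ℝ) ^ 2 * (D.cr : ℝ) := by
      calc 2048 * (B : ℝ) ^ 2 * (t : ℝ) ^ 4 = (2048 * (B : ℝ) ^ 2 * (t : ℝ)) * (t : ℝ) * (t : ℝ) ^ 2 := by
            ring
        _ ≤ n * (t : ℝ) * (256 * (B : ℝ) ^ 2 * (q : ℝ) ^ 2) := by
            refine mul_le_mul (mul_le_mul_of_nonneg_right hnR htR) h3 (by positivity) (by positivity)
        _ = 256 * (B : ℝ) ^ 2 * (n * (q : ℝ) ^ 2 * t) := by ring
        _ ≤ 256 * (B : ℝ) ^ 2 * (8 * (D.cr : ℝ)) := mul_le_mul_of_nonneg_left h2 (by positivity)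
        _ = _ := by ring
    exact le_of_mul_le_mul_left h5 (by positivity)
  have h5 : crK t ≤ t ^ 4 := crK_le_pow t
  have h6 : (crK t : ℝ) ≤ (t : ℝ) ^ 4 := by exact_mod_cast h5
  have h7 : (crK t : ℝ) ≤ (D.cr : ℝ) := h6.trans h4
  exact_mod_cast h7

/-- the square root of `(2 d(v) - n) / n` -/
theorem sqrt_qd_le {V : Type} [Fintype V] (G : SimpleGraph V) {η : ℝ} (v : V) :
    Real.sqrt (qd G v) ≤ wt G η v + Real.sqrt η := by
  unfold wt
  by_cases h : η ≤ qd G v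
  · rw [if_pos h]
    linarith [Real.sqrt_nonneg η]
  · rw [if_neg h, zero_add]
    exact Real.sqrt_le_sqrt (not_le.1 h).le

theorem sqrt_qd_le_one {V : Type} [Fintype V] (G : SimpleGraph V) (hV : 0 < Fintype.card V)
    (v : V) : Real.sqrt (qd G v) ≤ 1 := Real.sqrt_le_one.2 (qd_le G hV v)

/-- many vertices of degree more than `n / 2` -/
theorem edges_ge {V : Type} [Fintype V] (G : SimpleGraph V) (hV : 0 < Fintype.card V) {t : ℕ}
    (h : (t : ℝ) ≤ ∑ v, Real.sqrt (qd G v)) : t * Fintype.card V ≤ 4 * (ed G).card := by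
  classical
  have hn : (0 : ℝ) < Fintype.card V := by exact_mod_cast hV
  have h1 : ∀ v, (Fintype.card V : ℝ) / 2 * Real.sqrt (qd G v) ≤ (dg G v : ℝ) := by
    intro v
    by_cases h2 : 0 ≤ qd G v
    · have h3 : (Fintype.card V : ℝ) ≤ 2 * (dg G v : ℝ) := by
        unfold qd at h2
        rw [le_div_iff₀ hn] at h2
        linarith
      have h4 := sqrt_qd_le_one G hV v
      have h5 := mul_le_mul_of_nonneg_left h4 (show 0 ≤ (Fintype.card V : ℝ) / 2 by positivity)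
      linarith
    · rw [Real.sqrt_eq_zero_of_nonpos (not_le.1 h2).le, mul_zero]
      exact Nat.cast_nonneg _
  have h2 : (Fintype.card V : ℝ) / 2 * ∑ v, Real.sqrt (qd G v) ≤ ∑ v, (dg G v : ℝ) := by
    rw [mul_sum]
    exact sum_le_sum fun v _ => h1 v
  rw [sum_dg] at h2
  have h3 : (Fintype.card V : ℝ) / 2 * (t : ℝ) ≤ (Fintype.card V : ℝ) / 2 *
      ∑ v, Real.sqrt (qd G v) := mul_le_mul_of_nonneg_left h (by positivity)
  have h4 : (t : ℝ) * (Fintype.card V : ℝ) ≤ 4 * ((ed G).card : ℝ) := by linarith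
  exact_mod_cast h4

/-- **Dense inequality.** -/
theorem dense {ε : ℝ} (hε : 0 < ε) : ∃ t₀ : ℕ, ∀ (V : Type) (_ : Fintype V) (G : SimpleGraph V)
    (t : ℕ), t₀ ≤ t → (1 + ε) * (t : ℝ) ≤ ∑ v, Real.sqrt (qd G v) →
    ∀ D : Drw G, crK t ≤ D.cr := by
  obtain ⟨C, hC, t1, hbig⟩ := big
  have hCR : (0 : ℝ) < C := by exact_mod_cast hC
  set r : ℝ := ε / (2 * C) with hr
  have hr0 : 0 < r := by positivity
  obtain ⟨n₀, hasy⟩ := asy (κ := 1 / C) (η := r ^ 2) (γ := ε / 2) (by positivity) (by positivity)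
    (by positivity)
  refine ⟨max t1 (max n₀ 1), ?_⟩
  intro V _ G t ht hK D
  simp only [max_le_iff] at ht
  obtain ⟨ht1, ht2, ht3⟩ := ht
  obtain ⟨D', hD', hNA⟩ := exists_noAdj D
  refine le_trans ?_ hD'
  have htR : (1 : ℝ) ≤ t := by exact_mod_cast ht3
  have hV : 0 < Fintype.card V := by
    rcases Nat.eq_zero_or_pos (Fintype.card V) with h | h
    · exfalso
      have hemp : IsEmpty V := Fintype.card_eq_zero_iff.1 h
      rw [Fintype.sum_empty] at hK
      nlinarith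
    · exact h
  have hnR : (0 : ℝ) < Fintype.card V := by exact_mod_cast hV
  have hKn : ∑ v, Real.sqrt (qd G v) ≤ (Fintype.card V : ℝ) := by
    calc ∑ v, Real.sqrt (qd G v) ≤ ∑ _v : V, (1 : ℝ) :=
          sum_le_sum fun v _ => sqrt_qd_le_one G hV v
      _ = _ := by rw [sum_const, card_univ, nsmul_eq_mul, mul_one]
  have hKt : (t : ℝ) ≤ ∑ v, Real.sqrt (qd G v) := by nlinarith
  have htn : t ≤ Fintype.card V := by exact_mod_cast hKt.trans hKn
  by_cases hcase : C * t ≤ Fintype.card V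
  · exact hbig V inferInstance G D' t hNA ht1 (edges_ge G hV hKt) hcase
  push Not at hcase
  have hcR : (Fintype.card V : ℝ) ≤ C * t := by exact_mod_cast hcase.le
  have h1 : ∑ v, Real.sqrt (qd G v) ≤ ∑ v, wt G (r ^ 2) v + r * (Fintype.card V : ℝ) := by
    calc ∑ v, Real.sqrt (qd G v) ≤ ∑ v, (wt G (r ^ 2) v + r) := by
          refine sum_le_sum fun v _ => ?_
          have h2 := sqrt_qd_le G (η := r ^ 2) v
          rwa [Real.sqrt_sq hr0.le] at h2
      _ = _ := by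
          rw [sum_add_distrib, sum_const, card_univ, nsmul_eq_mul]
          ring
  have h2 : r * (Fintype.card V : ℝ) ≤ ε / 2 * (t : ℝ) := by
    calc r * (Fintype.card V : ℝ) ≤ r * (C * t) := mul_le_mul_of_nonneg_left hcR hr0.le
      _ = ε / 2 * (t : ℝ) := by
          rw [hr]
          field_simp
  have h3 : (1 + ε / 2) * (t : ℝ) ≤ ∑ v, wt G (r ^ 2) v := by linarith
  refine hasy V inferInstance G D' t hNA (by omega) ?_ h3
  have h4 : 1 / (C : ℝ) * (Fintype.card V : ℝ) ≤ t := by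
    rw [one_div, inv_mul_le_iff₀ hCR]
    exact hcR
  nlinarith

end Pool.Agent.AXM
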