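import Pool.Agent.ALB.Cloud

/-! # AXM CLD: the square root cloud

`wt G η v = sqrt ((2 d(v) - n) / n)` (and `0` if `(2 d(v) - n) / n < η`).  Non-adjacent vertices
`u, v` of positive weight have at least `d(u) + d(v) - n = n (x_u² + x_v²) / 2 ≥ n x_u x_v` common
neighbours; with a uniform common neighbour as middle vertex all loads are at most `1`:
`load(a b) ≤ x_a x_b + (n - d(a)) / n + (n - d(b)) / n ≤ 1`. -/

set_option autoImplicit false

namespace Pool.Agent.AXM

open Finset Pool.Agent.ALB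

variable {V : Type} [Fintype V]

open Classical in
/-- the degree (no decidability needed) -/
noncomputable def dg (G : SimpleGraph V) (v : V) : ℕ := (univ.filter (fun x => G.Adj v x)).card

/-- `(2 d(v) - n) / n` -/
noncomputable def qd (G : SimpleGraph V) (v : V) : ℝ :=
  (2 * (dg G v : ℝ) - (Fintype.card V : ℝ)) / (Fintype.card V : ℝ)

open Classical in
/-- the square root weight with cut off -/
noncomputable def wt (G : SimpleGraph V) (η : ℝ) (v : V) : ℝ :=
  if η ≤ qd G v then Real.sqrt (qd G v) else 0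

open Classical in
/-- common neighbours -/
noncomputable def cn (G : SimpleGraph V) (u v : V) : Finset V :=
  univ.filter (fun w => G.Adj u w ∧ G.Adj v w)

theorem mem_cn {G : SimpleGraph V} {u v w : V} : w ∈ cn G u v ↔ G.Adj u w ∧ G.Adj v w := by
  classical
  unfold cn
  rw [mem_filter]
  exact ⟨fun h => h.2, fun h => ⟨mem_univ _, h⟩⟩

theorem cn_comm (G : SimpleGraph V) (u v : V) : cn G u v = cn G v u := by
  ext w
  rw [mem_cn, mem_cn]
  exact and_comm

theorem dg_le (G : SimpleGraph V) (v : V) : dg G v ≤ Fintype.card V := by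
  classical
  exact card_le_univ _

theorem cn_card (G : SimpleGraph V) (u v : V) :
    dg G u + dg G v ≤ (cn G u v).card + Fintype.card V := by
  classical
  unfold dg cn
  have h1 := card_union_add_card_inter (univ.filter (fun x => G.Adj u x))
    (univ.filter (fun x => G.Adj v x))
  have h2 : (univ.filter (fun x => G.Adj u x)) ∩ (univ.filter (fun x => G.Adj v x)) =
      univ.filter (fun w => G.Adj u w ∧ G.Adj v w) := by
    ext w
    simp
  rw [h2] at h1
  have h3 : ((univ.filter (fun x => G.Adj u x)) ∪ (univ.filter (fun x => G.Adj v x))).card ≤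
      Fintype.card V := card_le_univ _
  omega

theorem qd_le (G : SimpleGraph V) (hV : 0 < Fintype.card V) (v : V) : qd G v ≤ 1 := by
  have hn : (0 : ℝ) < Fintype.card V := by exact_mod_cast hV
  have h1 : (dg G v : ℝ) ≤ Fintype.card V := by exact_mod_cast dg_le G v
  unfold qd
  rw [div_le_one hn]
  linarith

theorem wt_nonneg (G : SimpleGraph V) (η : ℝ) (v : V) : 0 ≤ wt G η v := by
  unfold wt
  split_ifs
  · exact Real.sqrt_nonneg _
  · exact le_rfl

theorem wt_le (G : SimpleGraph V) (hV : 0 < Fintype.card V) (η : ℝ) (v : V) : wt G η v ≤ 1 := by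
  unfold wt
  split_ifs
  · exact Real.sqrt_le_one.2 (qd_le G hV v)
  · exact zero_le_one

theorem wt_sq (G : SimpleGraph V) {η : ℝ} (hη : 0 < η) {v : V} (h : wt G η v ≠ 0) :
    wt G η v ^ 2 = qd G v ∧ η ≤ qd G v := by
  unfold wt at h ⊢
  by_cases h1 : η ≤ qd G v
  · rw [if_pos h1]
    exact ⟨Real.sq_sqrt (hη.le.trans h1), h1⟩
  · rw [if_neg h1] at h
    exact absurd rfl h

/-- the number of common neighbours is at least `n (x_u² + x_v²) / 2` -/
theorem cn_ge (G : SimpleGraph V) (hV : 0 < Fintype.card V) {η : ℝ} (hη : 0 < η) {u v : V}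
    (hu : wt G η u ≠ 0) (hv : wt G η v ≠ 0) :
    (Fintype.card V : ℝ) * ((wt G η u ^ 2 + wt G η v ^ 2) / 2) ≤ ((cn G u v).card : ℝ) ∧
      η * (Fintype.card V : ℝ) ≤ ((cn G u v).card : ℝ) := by
  have hn : (0 : ℝ) < Fintype.card V := by exact_mod_cast hV
  obtain ⟨h1, h2⟩ := wt_sq G hη hu
  obtain ⟨h3, h4⟩ := wt_sq G hη hv
  have h5 : (dg G u : ℝ) + dg G v ≤ ((cn G u v).card : ℝ) + Fintype.card V := by
    exact_mod_cast cn_card G u v
  have h6 : (Fintype.card V : ℝ) * ((qd G u + qd G v) / 2) = (dg G u : ℝ) + dg G v - Fintype.card V := by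
    unfold qd
    field_simp
    ring
  rw [h1, h3]
  refine ⟨by linarith, ?_⟩
  nlinarith

/-- the square root cloud -/
noncomputable def scl (G : SimpleGraph V) (hV : 0 < Fintype.card V) {κ η : ℝ} (hη : 0 < η)
    (hK : κ * (Fintype.card V : ℝ) ≤ ∑ v, wt G η v) : Cloud G 1 κ η where
  x := wt G η
  R := cn G
  x_nonneg := wt_nonneg G η
  x_le := wt_le G hV η
  K_ge := hK
  R_symm := cn_comm G
  R_adj := fun _ _ _ h => mem_cn.1 h
  R_card := fun _ _ _ _ hu hv => (cn_ge G hV hη hu hv).2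

variable {G : SimpleGraph V} {κ η : ℝ}

theorem scl_half_le (hV : 0 < Fintype.card V) (hη : 0 < η)
    (hK : κ * (Fintype.card V : ℝ) ≤ ∑ v, wt G η v) (a b : V) :
    (scl G hV hη hK).half a b ≤ ((Fintype.card V : ℝ) - dg G a) / (Fintype.card V : ℝ) := by
  classical
  have hn : (0 : ℝ) < Fintype.card V := by exact_mod_cast hV
  unfold Cloud.half
  refine (sum_le_card_nsmul _ _ (1 / (Fintype.card V : ℝ)) ?_).trans ?_
  · intro v hv
    change wt G η a * wt G η v / ((cn G a v).card : ℝ) ≤ _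
    by_cases h0 : wt G η a ≠ 0 ∧ wt G η v ≠ 0
    · obtain ⟨h1, h2⟩ := cn_ge G hV hη h0.1 h0.2
      have h3 : (0 : ℝ) < ((cn G a v).card : ℝ) := lt_of_lt_of_le (mul_pos hη hn) h2
      rw [div_le_div_iff₀ h3 hn, one_mul]
      have h4 := sq_nonneg (wt G η a - wt G η v)
      nlinarith
    · have h1 : wt G η a * wt G η v = 0 := by
        by_contra hne
        exact h0 ⟨fun h => hne (by rw [h, zero_mul]), fun h => hne (by rw [h, mul_zero])⟩
      rw [h1, zero_div]
      positivity
  · rw [nsmul_eq_mul]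
    have h1 : (univ.filter (fun v => v ≠ a ∧ ¬ G.Adj a v ∧ b ∈ (scl G hV hη hK).R a v)).card +
        dg G a ≤ Fintype.card V := by
      unfold dg
      rw [← card_union_of_disjoint]
      · exact card_le_univ _
      · rw [disjoint_left]
        intro v h2 h3
        rw [mem_filter] at h2 h3
        exact h2.2.2.1 h3.2
    have h2 : (((univ.filter (fun v => v ≠ a ∧ ¬ G.Adj a v ∧
        b ∈ (scl G hV hη hK).R a v)).card : ℕ) : ℝ) + dg G a ≤ Fintype.card V := by
      exact_mod_cast h1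
    rw [mul_one_div, div_le_div_iff_of_pos_right hn]
    linarith

theorem scl_half_zero (hV : 0 < Fintype.card V) (hη : 0 < η)
    (hK : κ * (Fintype.card V : ℝ) ≤ ∑ v, wt G η v) {a : V} (b : V) (h : wt G η a = 0) :
    (scl G hV hη hK).half a b = 0 := by
  classical
  unfold Cloud.half
  refine sum_eq_zero fun v _ => ?_
  change wt G η a * wt G η v / ((cn G a v).card : ℝ) = 0
  rw [h, zero_mul, zero_div]

theorem scl_load2_le (hV : 0 < Fintype.card V) (hη : 0 < η)
    (hK : κ * (Fintype.card V : ℝ) ≤ ∑ v, wt G η v) (a b : V) :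
    (scl G hV hη hK).load2 a b ≤ 1 := by
  have hn : (0 : ℝ) < Fintype.card V := by exact_mod_cast hV
  have h1 := scl_half_le hV hη hK a b
  have h2 := scl_half_le hV hη hK b a
  have hd : ∀ v, ((Fintype.card V : ℝ) - dg G v) / (Fintype.card V : ℝ) ≤ 1 := by
    intro v
    rw [div_le_one hn]
    have : (0 : ℝ) ≤ dg G v := Nat.cast_nonneg _
    linarith
  unfold Cloud.load2
  change wt G η a * wt G η b + _ + _ ≤ 1
  by_cases ha : wt G η a = 0
  · rw [ha, scl_half_zero hV hη hK b ha, zero_mul]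
    linarith [hd b]
  by_cases hb : wt G η b = 0
  · rw [hb, scl_half_zero hV hη hK a hb, mul_zero]
    linarith [hd a]
  obtain ⟨h3, -⟩ := wt_sq G hη ha
  obtain ⟨h4, -⟩ := wt_sq G hη hb
  have h5 : (qd G a + qd G b) / 2 + ((Fintype.card V : ℝ) - dg G a) / (Fintype.card V : ℝ) +
      ((Fintype.card V : ℝ) - dg G b) / (Fintype.card V : ℝ) = 1 := by
    unfold qd
    field_simp
    ring
  have h6 := sq_nonneg (wt G η a - wt G η b)
  nlinarith

theorem scl_half_nonneg (hV : 0 < Fintype.card V) (hη : 0 < η)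
    (hK : κ * (Fintype.card V : ℝ) ≤ ∑ v, wt G η v) (a b : V) :
    0 ≤ (scl G hV hη hK).half a b := by
  classical
  unfold Cloud.half
  refine sum_nonneg fun v _ => ?_
  exact div_nonneg (mul_nonneg ((scl G hV hη hK).x_nonneg _) ((scl G hV hη hK).x_nonneg _))
    (Nat.cast_nonneg _)

theorem scl_load_sq (hV : 0 < Fintype.card V) (hη : 0 < η)
    (hK : κ * (Fintype.card V : ℝ) ≤ ∑ v, wt G η v) (f : Sym2 V) :
    (scl G hV hη hK).load f ^ 2 ≤ 1 := by
  induction f with
  | _ a b =>
    rw [Cloud.load_mk]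
    have h1 := scl_load2_le hV hη hK a b
    have h2 : 0 ≤ (scl G hV hη hK).load2 a b := by
      unfold Cloud.load2
      have h3 := mul_nonneg ((scl G hV hη hK).x_nonneg a) ((scl G hV hη hK).x_nonneg b)
      have h4 := scl_half_nonneg hV hη hK a b
      have h5 := scl_half_nonneg hV hη hK b a
      linarith
    nlinarith

/-- **Square root weights.** -/
theorem sqrt_ineq (D : Drw G) (hD : D.NoAdj) (hκ : 0 < κ) (hη : 0 < η)
    (hV : 0 < Fintype.card V) {a : ℕ} (ha : 4 ≤ a)
    (hK : κ * (Fintype.card V : ℝ) ≤ ∑ v, wt G η v) :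
    (crK a : ℝ) / (24 * (a.choose 4 : ℝ)) * (∑ v, wt G η v) ^ 4 *
        (1 - (a : ℝ) ^ 4 * (2 / κ + 1 / η) / (Fintype.card V : ℝ)) ≤
      (1 + B0 1 κ η / ((a : ℝ) - 3)) * (D.cr : ℝ) := by
  have h := mix_ineq D hD (C := 1) one_pos hκ hη hV ha (S := Unit) (fun _ => 1)
    (fun _ => zero_le_one) (by simp) (fun _ => scl G hV hη hK) (∑ v, wt G η v) (fun _ => rfl)
    (fun f _ => by simpa using scl_load_sq hV hη hK f)
  rwa [mul_one, one_pow, mul_one] at h

end Pool.Agent.AXM
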