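import Pool.Agent.ALC.Vz

/-! # AXM COL: colouring a graph by a large matching of its complement

By Vizing's theorem the complement of `G`, if its degrees are less than `m`, has a matching with at
least `e / m` edges (`e` the number of edges of the complement), so `G` has a proper colouring with
`k` colours, `m k + e ≤ m n`. -/

set_option autoImplicit false

namespace Pool.Agent.AXM

open Finset Pool.Agent.ALC

variable {V : Type} [Fintype V]

/-- a proper colouring from one colour class of an edge colouring of the complement -/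
theorem col_class (G : SimpleGraph V) {m : ℕ} (c : Sym2 V → Fin m)
    (hc : ∀ x y z, Gᶜ.Adj x y → Gᶜ.Adj x z → y ≠ z → c s(x, y) ≠ c s(x, z)) (i : Fin m)
    (M : Finset (Sym2 V)) (hM : ∀ e, e ∈ M ↔ e ∈ Gᶜ.edgeSet ∧ c e = i) :
    ∃ k : ℕ, G.Colorable k ∧ k + M.card ≤ Fintype.card V := by
  classical
  let p : V → V := fun v => if h : ∃ y, Gᶜ.Adj v y ∧ c s(v, y) = i then h.choose else v
  have hp1 : ∀ v y, Gᶜ.Adj v y → c s(v, y) = i → p v = y := by
    intro v y h1 h2
    have hex : ∃ y, Gᶜ.Adj v y ∧ c s(v, y) = i := ⟨y, h1, h2⟩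
    have h3 : p v = hex.choose := dif_pos hex
    obtain ⟨h4, h5⟩ := hex.choose_spec
    rw [h3]
    by_contra hne
    exact hc v _ y h4 h1 hne (h5.trans h2.symm)
  have hp2 : ∀ v, p v = v ∨ (Gᶜ.Adj v (p v) ∧ c s(v, p v) = i) := by
    intro v
    by_cases hex : ∃ y, Gᶜ.Adj v y ∧ c s(v, y) = i
    · right
      have h3 : p v = hex.choose := dif_pos hex
      rw [h3]
      exact hex.choose_spec
    · left
      exact dif_neg hex
  let φ : V → Sym2 V := fun v => s(v, p v)
  let I : Finset (Sym2 V) := univ.image φ
  refine ⟨I.card, ?_, ?_⟩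
  · let C : G.Coloring I := SimpleGraph.Coloring.mk
      (fun v => (⟨φ v, mem_image_of_mem _ (mem_univ v)⟩ : I)) (by
        intro v w hvw heq
        have h1 : φ v = φ w := congrArg Subtype.val heq
        change s(v, p v) = s(w, p w) at h1
        rw [Sym2.eq_iff] at h1
        rcases h1 with ⟨h1, -⟩ | ⟨h1, h2⟩
        · exact hvw.ne h1
        · rcases hp2 v with h3 | h3
          · exact hvw.ne (h3.symm.trans h2)
          · rw [h2] at h3
            exact ((SimpleGraph.compl_adj _ _ _).1 h3.1).2 hvw)
    have h := C.colorable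
    rwa [Fintype.card_coe] at h
  · have h1 : Fintype.card V = ∑ y ∈ I, (univ.filter (fun v => φ v = y)).card := by
      rw [← card_univ]
      exact card_eq_sum_card_image φ univ
    have hMI : M ⊆ I := by
      intro e he
      rw [hM] at he
      induction e with
      | _ x y =>
        obtain ⟨h2, h3⟩ := he
        rw [SimpleGraph.mem_edgeSet] at h2
        refine mem_image.2 ⟨x, mem_univ _, ?_⟩
        change s(x, p x) = s(x, y)
        rw [hp1 x y h2 h3]
    have h2 : ∀ y ∈ I, (1 + if y ∈ M then 1 else 0) ≤ (univ.filter (fun v => φ v = y)).card := by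
      intro e he
      by_cases hm : e ∈ M
      · rw [if_pos hm]
        rw [hM] at hm
        induction e with
        | _ x y =>
          obtain ⟨h2, h3⟩ := hm
          rw [SimpleGraph.mem_edgeSet] at h2
          have h4 : φ x = s(x, y) := by
            change s(x, p x) = s(x, y)
            rw [hp1 x y h2 h3]
          have h5 : φ y = s(x, y) := by
            change s(y, p y) = s(x, y)
            rw [hp1 y x h2.symm (by rw [Sym2.eq_swap]; exact h3), Sym2.eq_swap]
          have h6 : ({x, y} : Finset V) ⊆ univ.filter (fun v => φ v = s(x, y)) := by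
            intro z hz
            rw [mem_insert, mem_singleton] at hz
            rw [mem_filter]
            rcases hz with rfl | rfl
            · exact ⟨mem_univ _, h4⟩
            · exact ⟨mem_univ _, h5⟩
          have h7 := card_le_card h6
          rwa [card_pair h2.ne] at h7
      · rw [if_neg hm, add_zero]
        obtain ⟨v, -, hv⟩ := mem_image.1 he
        exact card_pos.2 ⟨v, mem_filter.2 ⟨mem_univ _, hv⟩⟩
    have h3 := sum_le_sum h2
    rw [← h1, sum_add_distrib, sum_const, smul_eq_mul, mul_one, ← card_filter] at h3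
    have h4 : I.filter (fun y => y ∈ M) = M := by
      ext y
      rw [mem_filter]
      exact ⟨fun h => h.2, fun h => ⟨hMI h, h⟩⟩
    rwa [h4] at h3

/-- **Vizing colouring.** -/
theorem col (G : SimpleGraph V) {m : ℕ} (hm : 0 < m) (h : ∀ x, {y | Gᶜ.Adj x y}.ncard < m) :
    ∃ k : ℕ, G.Colorable k ∧ m * k + (Set.toFinite Gᶜ.edgeSet).toFinset.card ≤
      m * Fintype.card V := by
  classical
  obtain ⟨c, hc⟩ := vizing Gᶜ m h
  set E := (Set.toFinite Gᶜ.edgeSet).toFinset with hE
  have hmem : ∀ e, e ∈ E ↔ e ∈ Gᶜ.edgeSet := fun e => by rw [hE, Set.Finite.mem_toFinset]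
  have h1 : E.card = ∑ i : Fin m, (E.filter (fun e => c e = i)).card :=
    card_eq_sum_card_fiberwise (fun e _ => mem_univ (c e))
  obtain ⟨i, -, hi⟩ : ∃ i ∈ (univ : Finset (Fin m)), E.card ≤ m * (E.filter (fun e => c e = i)).card := by
    by_contra hcon
    push Not at hcon
    have h2 : ∑ i : Fin m, m * (E.filter (fun e => c e = i)).card < ∑ _i : Fin m, E.card :=
      sum_lt_sum_of_nonempty ⟨⟨0, hm⟩, mem_univ _⟩ hcon
    rw [← mul_sum, ← h1, sum_const, card_univ, Fintype.card_fin, smul_eq_mul] at h2
    exact lt_irrefl _ h2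
  obtain ⟨k, hk, hk2⟩ := col_class G c hc i (E.filter (fun e => c e = i)) (fun e => by
    rw [mem_filter, hmem])
  refine ⟨k, hk, ?_⟩
  calc m * k + E.card ≤ m * k + m * (E.filter (fun e => c e = i)).card :=
        Nat.add_le_add_left hi _
    _ = m * (k + (E.filter (fun e => c e = i)).card) := by ring
    _ ≤ m * Fintype.card V := Nat.mul_le_mul_left _ hk2

end Pool.Agent.AXM
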