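import Pool.Agent.AXM.Sum
import Pool.Agent.ALC.Core

/-! # AXM DNS: graphs of minimum degree at least `(5/8 + ε) n`

Let `n = |V|`, `e` the number of edges of the complement, `μ = 3/8 - ε`.  Vizing's theorem for the
complement gives `t + e / (μ n) ≤ n`, the square root weights have sum
`K ≥ n - (8/3) e / n - 4/3`, so `K - t ≥ 7 ε e / n - 4/3`.  If `e ≥ g n²` this is `≥ 6 ε g t`.  If
`e < g n²` then `K ≥ (1 - (8/3) g) n - 4/3`, which is enough for `n ≥ (1 + ε₀) t`.  If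
`n < (1 + ε₀) t` use `ALC.core`. -/

set_option autoImplicit false

namespace Pool.Agent.AXM

open Finset Pool.Agent.ALB

/-- the consequence of Vizing's theorem -/
theorem t_le {V : Type} [Fintype V] (G : SimpleGraph V) (hV : 0 < Fintype.card V) {ε : ℝ}
    (hε : 0 < ε) (hε1 : ε < 3 / 8)
    (h : ∀ v, (5 / 8 + ε) * (Fintype.card V : ℝ) ≤ (dg G v : ℝ)) {t : ℕ}
    (ht : ¬ G.Colorable (t - 1)) :
    (t : ℝ) + (8 / 3 + 7 * ε) * ((ed Gᶜ).card : ℝ) / (Fintype.card V : ℝ) ≤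
      (Fintype.card V : ℝ) := by
  have hn : (0 : ℝ) < Fintype.card V := by exact_mod_cast hV
  set μ : ℝ := 3 / 8 - ε with hμ
  have hμ0 : 0 < μ := by linarith
  set m : ℕ := ⌊μ * (Fintype.card V : ℝ)⌋₊ with hm
  have h1 : ∀ v, dg Gᶜ v + 1 ≤ m := by
    intro v
    rw [hm]
    apply Nat.le_floor
    have h2 : (dg G v : ℝ) + dg Gᶜ v + 1 = Fintype.card V := by exact_mod_cast dg_compl G v
    have h3 := h v
    push_cast
    rw [hμ]
    linarith
  have hm0 : 0 < m := by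
    have : Nonempty V := Fintype.card_pos_iff.1 hV
    obtain ⟨v⟩ := this
    have := h1 v
    omega
  obtain ⟨k, hk, hk2⟩ := col G hm0 (fun x => by
    have h4 := h1 x
    rw [dg_eq_ncard] at h4
    omega)
  have htk : t ≤ k := by
    by_contra hlt
    exact ht (hk.mono (by omega))
  have h5 : (m : ℝ) * k + ((ed Gᶜ).card : ℝ) ≤ m * (Fintype.card V : ℝ) := by
    have h6 : m * k + (ed Gᶜ).card ≤ m * Fintype.card V := hk2
    exact_mod_cast h6
  have hmR : (0 : ℝ) < m := by exact_mod_cast hm0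
  have htkR : (t : ℝ) ≤ k := by exact_mod_cast htk
  have hmμ : (m : ℝ) ≤ μ * (Fintype.card V : ℝ) := Nat.floor_le (by positivity)
  set e : ℝ := ((ed Gᶜ).card : ℝ) with he
  have he0 : 0 ≤ e := Nat.cast_nonneg _
  -- `e / m ≤ n - t`
  have h7 : e ≤ m * ((Fintype.card V : ℝ) - t) := by nlinarith
  have h8 : 0 ≤ (Fintype.card V : ℝ) - t := by
    by_contra hneg
    push Not at hneg
    have := mul_neg_of_pos_of_neg hmR hneg
    linarith
  have h9 : e ≤ μ * (Fintype.card V : ℝ) * ((Fintype.card V : ℝ) - t) :=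
    h7.trans (mul_le_mul_of_nonneg_right hmμ h8)
  have h10 : (8 / 3 + 7 * ε) * μ ≤ 1 := by
    rw [hμ]
    nlinarith
  have h11 : (8 / 3 + 7 * ε) * e / (Fintype.card V : ℝ) ≤ (Fintype.card V : ℝ) - t := by
    rw [div_le_iff₀ hn]
    calc (8 / 3 + 7 * ε) * e ≤ (8 / 3 + 7 * ε) *
          (μ * (Fintype.card V : ℝ) * ((Fintype.card V : ℝ) - t)) :=
            mul_le_mul_of_nonneg_left h9 (by positivity)
      _ = ((8 / 3 + 7 * ε) * μ) * ((Fintype.card V : ℝ) * ((Fintype.card V : ℝ) - t)) := by ring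
      _ ≤ 1 * ((Fintype.card V : ℝ) * ((Fintype.card V : ℝ) - t)) :=
            mul_le_mul_of_nonneg_right h10 (by positivity)
      _ = _ := by ring
  linarith

/-- **Minimum degree at least `(5/8 + ε) n`.** -/
theorem core58 {ε : ℝ} (hε : 0 < ε) : ∃ t₀ : ℕ, ∀ (n : ℕ) (G : SimpleGraph (Fin n)) (t : ℕ),
    t₀ ≤ t → (∀ v, (5 / 8 + ε) * (n : ℝ) ≤ ({x | G.Adj v x}.ncard : ℝ)) →
    ¬ G.Colorable (t - 1) → ∀ D : Drw G, crK t ≤ D.cr := by
  classical
  obtain ⟨ε₀, hε₀, k₀, hcore⟩ := Pool.Agent.ALC.core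
  set e0 : ℝ := min ε₀ 1 with he0d
  have he0 : 0 < e0 := lt_min hε₀ one_pos
  have he01 : e0 ≤ 1 := min_le_right _ _
  have he0ε : e0 ≤ ε₀ := min_le_left _ _
  set g : ℝ := e0 / 8 with hg
  have hg0 : 0 < g := by positivity
  set γ : ℝ := min (6 * ε * g) (e0 / 4) with hγd
  have hγ : 0 < γ := lt_min (by positivity) (by positivity)
  obtain ⟨n₀, hasy⟩ := asy (κ := 1 / 2) (η := 1 / 4) (γ := γ) (by norm_num) (by norm_num) hγ
  obtain ⟨N1, hN1⟩ := exists_nat_ge (4 / 3 / (ε * g))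
  obtain ⟨N2, hN2⟩ := exists_nat_ge (16 / e0)
  refine ⟨max (max (k₀ + 1) n₀) (max N1 N2), ?_⟩
  intro n G t ht hdeg hcol D
  simp only [max_le_iff] at ht
  obtain ⟨⟨ht1, ht2⟩, ht3, ht4⟩ := ht
  -- the number of vertices
  have hcard : Fintype.card (Fin n) = n := Fintype.card_fin n
  have htn : t ≤ n := by
    by_contra hlt
    have h1 : G.Colorable n := by
      have := G.colorable_of_fintype
      rwa [hcard] at this
    exact hcol (h1.mono (by omega))
  have hn0 : 0 < n := by omega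
  have hV : 0 < Fintype.card (Fin n) := by omega
  have hnR : (0 : ℝ) < n := by exact_mod_cast hn0
  have htR : (0 : ℝ) ≤ t := Nat.cast_nonneg _
  have htnR : (t : ℝ) ≤ n := by exact_mod_cast htn
  have hdeg' : ∀ v, (5 / 8 + ε) * (Fintype.card (Fin n) : ℝ) ≤ (dg G v : ℝ) := by
    intro v
    rw [hcard, dg_eq_ncard]
    exact hdeg v
  have hε1 : ε < 3 / 8 := by
    have h1 := hdeg' ⟨0, hn0⟩
    have h2 : (dg G ⟨0, hn0⟩ : ℝ) + dg Gᶜ ⟨0, hn0⟩ + 1 = Fintype.card (Fin n) := by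
      exact_mod_cast dg_compl G ⟨0, hn0⟩
    rw [hcard] at h1 h2
    have h3 : (0 : ℝ) ≤ dg Gᶜ ⟨0, hn0⟩ := Nat.cast_nonneg _
    by_contra hge
    push Not at hge
    nlinarith
  -- the case of few vertices
  by_cases hsmall : (n : ℝ) < (1 + e0) * (t : ℝ)
  · refine hcore n G t (by omega) ?_ hcol D
    intro A hA
    have hne : A.Nonempty := by
      by_contra hemp
      rw [not_nonempty_iff_eq_empty] at hemp
      apply hA
      subst hemp
      have : IsEmpty {x : Fin n // x ∈ (∅ : Finset (Fin n))} := ⟨fun x => notMem_empty _ x.2⟩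
      exact SimpleGraph.Colorable.of_isEmpty _
    obtain ⟨v, hv⟩ := hne
    refine ⟨v, hv, ?_⟩
    have h1 : {x | x ∈ A ∧ G.Adj v x}.ncard ≤ n := by
      have h2 := Set.ncard_le_ncard (Set.subset_univ {x | x ∈ A ∧ G.Adj v x}) (Set.toFinite _)
      rwa [Set.ncard_univ, Nat.card_eq_fintype_card, hcard] at h2
    have h2 : ({x | x ∈ A ∧ G.Adj v x}.ncard : ℝ) ≤ n := by exact_mod_cast h1
    have h3 : (1 + e0) * (t : ℝ) ≤ (1 + ε₀) * (t : ℝ) :=
      mul_le_mul_of_nonneg_right (by linarith) htR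
    linarith
  push Not at hsmall
  -- the other cases
  obtain ⟨D', hD', hNA⟩ := exists_noAdj D
  refine le_trans ?_ hD'
  obtain ⟨hs1, hs2⟩ := wt_sum G hV (fun v => by
    have h1 := hdeg' v
    have h2 : 0 ≤ ε * (Fintype.card (Fin n) : ℝ) := by positivity
    linarith)
  refine hasy (Fin n) inferInstance G D' t hNA (by omega) hs2 ?_
  have ht' := t_le G hV hε hε1 hdeg' hcol
  rw [hcard] at hs1 ht'
  set e : ℝ := ((ed Gᶜ).card : ℝ) with he
  set K : ℝ := ∑ v, wt G (1 / 4) v with hK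
  have hsplit : (8 / 3 + 7 * ε) * e / (n : ℝ) = 8 / 3 * e / (n : ℝ) + 7 * ε * (e / (n : ℝ)) := by
    ring
  rw [hsplit] at ht'
  by_cases hbig : g * (n : ℝ) ^ 2 ≤ e
  · have h1 : g * (n : ℝ) ≤ e / (n : ℝ) := by
      rw [le_div_iff₀ hnR]
      calc g * (n : ℝ) * n = g * (n : ℝ) ^ 2 := by ring
        _ ≤ e := hbig
    have h2 : 7 * ε * (g * (n : ℝ)) ≤ 7 * ε * (e / (n : ℝ)) :=
      mul_le_mul_of_nonneg_left h1 (by positivity)
    have h3 : 4 / 3 ≤ ε * g * (n : ℝ) := by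
      have h4 : (N1 : ℝ) ≤ n := by exact_mod_cast (ht3.trans htn)
      have h5 := hN1.trans h4
      rw [div_le_iff₀ (by positivity)] at h5
      linarith
    have h4 : γ * (t : ℝ) ≤ 6 * ε * g * (n : ℝ) :=
      mul_le_mul (min_le_left _ _) htnR htR (by positivity)
    nlinarith
  · push Not at hbig
    have h1 : e / (n : ℝ) ≤ g * (n : ℝ) := by
      rw [div_le_iff₀ hnR]
      calc e ≤ g * (n : ℝ) ^ 2 := hbig.le
        _ = g * (n : ℝ) * n := by ring
    have h2 : (1 - e0 / 3) * (n : ℝ) - 4 / 3 ≤ K := by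
      have h3 : 8 / 3 * e / (n : ℝ) = 8 / 3 * (e / (n : ℝ)) := by ring
      rw [h3] at hs1
      have h4 : 8 / 3 * (g * (n : ℝ)) = e0 / 3 * (n : ℝ) := by
        rw [hg]
        ring
      nlinarith
    have h3 : (1 - e0 / 3) * ((1 + e0) * (t : ℝ)) ≤ (1 - e0 / 3) * (n : ℝ) :=
      mul_le_mul_of_nonneg_left hsmall (by linarith)
    have h4 : (1 + e0 / 3) * (t : ℝ) ≤ (1 - e0 / 3) * ((1 + e0) * (t : ℝ)) := by
      have h5 : (1 + e0 / 3) ≤ (1 - e0 / 3) * (1 + e0) := by nlinarith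
      calc (1 + e0 / 3) * (t : ℝ) ≤ ((1 - e0 / 3) * (1 + e0)) * (t : ℝ) :=
            mul_le_mul_of_nonneg_right h5 htR
        _ = _ := by ring
    have h5 : 4 / 3 ≤ e0 / 12 * (t : ℝ) := by
      have h6 : (N2 : ℝ) ≤ t := by exact_mod_cast ht4
      have h7 := hN2.trans h6
      rw [div_le_iff₀ he0] at h7
      linarith
    have h6 : γ * (t : ℝ) ≤ e0 / 4 * (t : ℝ) := mul_le_mul_of_nonneg_right (min_le_right _ _) htR
    linarith

end Pool.Agent.AXM
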