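import Pool.Agent.AXM.Um
import Pool.Agent.ALB.FrzIn
import Pool.Agent.ALB.FrzOut

/-! # AXM FIN: the two theorems in the form of the frozen statement -/

set_option autoImplicit false

namespace Pool.Agent.AXM

open Finset Pool.Agent.ALB

theorem dg_comap {V W : Type} [Fintype V] [Fintype W] (G : SimpleGraph V) (e : W ≃ V) (w : W) :
    dg (G.comap e) w = dg G (e w) := by
  rw [dg_eq_ncard, dg_eq_ncard]
  refine Set.ncard_congr (fun x _ => e x) ?_ ?_ ?_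
  · intro x hx
    exact hx
  · intro x y _ _ h
    exact e.injective h
  · intro y hy
    refine ⟨e.symm y, ?_, e.apply_symm_apply y⟩
    change G.Adj (e w) (e (e.symm y))
    rw [e.apply_symm_apply]
    exact hy

/-- `coreU` for `A = univ` -/
theorem coreU_univ : ∃ μ : ℝ, 0 < μ ∧ μ ≤ 1 / 4 ∧ ∃ t₀ : ℕ, ∀ (V : Type) (_ : Fintype V)
    (G : SimpleGraph V) (t : ℕ), t₀ ≤ t → ¬ G.Colorable (t - 1) →
    (1 - μ) * (t : ℝ) ≤ ∑ v, Real.sqrt (qd G v) → ∀ D : Drw G, crK t ≤ D.cr := by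
  classical
  obtain ⟨μ, hμ, hμ1, t₀, h⟩ := coreU
  refine ⟨μ, hμ, hμ1, t₀, ?_⟩
  intro V _ G t ht hcol hK D
  refine h V inferInstance G t ht hcol univ ?_ D
  let e : {x : V // x ∈ (univ : Finset V)} ≃ V :=
    ⟨Subtype.val, fun v => ⟨v, mem_univ v⟩, fun _ => Subtype.ext rfl, fun _ => rfl⟩
  have h1 : ∀ v : {x : V // x ∈ (univ : Finset V)},
      qd (G.comap (Subtype.val : {x // x ∈ (univ : Finset V)} → V)) v = qd G (e v) := by
    intro v
    unfold qd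
    have h2 := dg_comap G e v
    have h3 : Fintype.card {x : V // x ∈ (univ : Finset V)} = Fintype.card V :=
      Fintype.card_congr e
    rw [h3]
    change (2 * (dg (G.comap e) v : ℝ) - _) / _ = _
    rw [h2]
  simp only [h1]
  rw [Equiv.sum_comp e (fun v => Real.sqrt (qd G v))]
  exact hK

/-- the consequence of Vizing's theorem -/
theorem viz {V : Type} [Fintype V] (G : SimpleGraph V) (hV : 0 < Fintype.card V) {σ : ℝ}
    (hσ : 0 < σ) (h : ∀ v, (1 - σ) * (Fintype.card V : ℝ) ≤ (dg G v : ℝ)) {t : ℕ}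
    (ht : ¬ G.Colorable (t - 1)) :
    ((ed Gᶜ).card : ℝ) ≤ σ * (Fintype.card V : ℝ) * ((Fintype.card V : ℝ) - t) := by
  have hn : (0 : ℝ) < Fintype.card V := by exact_mod_cast hV
  set m : ℕ := ⌊σ * (Fintype.card V : ℝ)⌋₊ with hm
  have h1 : ∀ v, dg Gᶜ v + 1 ≤ m := by
    intro v
    rw [hm]
    apply Nat.le_floor
    have h2 : (dg G v : ℝ) + dg Gᶜ v + 1 = Fintype.card V := by exact_mod_cast dg_compl G v
    have h3 := h v
    push_cast
    linarith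
  have hm0 : 0 < m := by
    have : Nonempty V := Fintype.card_pos_iff.1 hV
    obtain ⟨v⟩ := this
    have := h1 v
    omega
  obtain ⟨k, hk, hk2⟩ := col G hm0 (fun x => by
    have h4 := h1 x
    rw [dg_eq_ncard] at h4
    omega)
  have htk : t ≤ k := by
    by_contra hlt
    exact ht (hk.mono (by omega))
  have h5 : (m : ℝ) * k + ((ed Gᶜ).card : ℝ) ≤ m * (Fintype.card V : ℝ) := by
    have h6 : m * k + (ed Gᶜ).card ≤ m * Fintype.card V := hk2
    exact_mod_cast h6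
  have hmR : (0 : ℝ) < m := by exact_mod_cast hm0
  have htkR : (t : ℝ) ≤ k := by exact_mod_cast htk
  have hmμ : (m : ℝ) ≤ σ * (Fintype.card V : ℝ) := Nat.floor_le (by positivity)
  have he0 : (0 : ℝ) ≤ ((ed Gᶜ).card : ℝ) := Nat.cast_nonneg _
  have h7 : ((ed Gᶜ).card : ℝ) ≤ m * ((Fintype.card V : ℝ) - t) := by nlinarith
  have h8 : 0 ≤ (Fintype.card V : ℝ) - t := by
    by_contra hneg
    push Not at hneg
    have := mul_neg_of_pos_of_neg hmR hneg
    linarith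
  exact h7.trans (mul_le_mul_of_nonneg_right hmμ h8)

/-- **The weights of a graph of minimum degree at least `(5/8 - μ/100) n`.** -/
theorem sumK {μ : ℝ} (hμ : 0 < μ) (hμ1 : μ ≤ 1 / 4) {V : Type} [Fintype V] (G : SimpleGraph V)
    {t : ℕ} (ht3 : 1 ≤ t) (hN : 4 / μ ≤ t)
    (hdeg : ∀ v, (5 / 8 - μ / 100) * (Fintype.card V : ℝ) ≤ (dg G v : ℝ))
    (hcol : ¬ G.Colorable (t - 1)) : (1 - μ) * (t : ℝ) ≤ ∑ v, Real.sqrt (qd G v) := by
  classical
  set ε : ℝ := μ / 100 with hε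
  have hε0 : 0 < ε := by positivity
  have hε1 : ε ≤ 1 / 400 := by linarith
  have htn : t ≤ Fintype.card V := by
    by_contra hlt
    exact hcol (G.colorable_of_fintype.mono (by omega))
  have hV : 0 < Fintype.card V := by omega
  have hn : (0 : ℝ) < Fintype.card V := by exact_mod_cast hV
  have htR : (1 : ℝ) ≤ t := by exact_mod_cast ht3
  have hviz := viz G hV (σ := 3 / 8 + ε) (by positivity) (fun v => by
    have := hdeg v
    linarith) hcol
  set n : ℝ := (Fintype.card V : ℝ) with hnd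
  set e : ℝ := ((ed Gᶜ).card : ℝ) with he
  have he0 : 0 ≤ e := Nat.cast_nonneg _
  have hq : ∀ v, 1 / 4 - 2 * ε ≤ qd G v := by
    intro v
    unfold qd
    rw [← hnd, le_div_iff₀ hn]
    have := hdeg v
    linarith
  -- first lower bound
  have hK1 : 2 / 5 * n ≤ ∑ v, Real.sqrt (qd G v) := by
    calc 2 / 5 * n = ∑ _v : V, (2 / 5 : ℝ) := by
          rw [sum_const, card_univ, nsmul_eq_mul]
          ring
      _ ≤ _ := by
          refine sum_le_sum fun v _ => ?_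
          apply Real.le_sqrt_of_sq_le
          have := hq v
          linarith
  -- second lower bound
  have hK2 : n - (8 / 3 + 4 * ε) * e / n - 2 ≤ ∑ v, Real.sqrt (qd G v) := by
    have h2 : ∀ v, 1 - (4 / 3 + 2 * ε) * (((dg Gᶜ v : ℝ) + 1) / n) ≤ Real.sqrt (qd G v) := by
      intro v
      have h3 : (dg G v : ℝ) + dg Gᶜ v + 1 = n := by
        rw [hnd]
        exact_mod_cast dg_compl G v
      set s : ℝ := ((dg Gᶜ v : ℝ) + 1) / n with hs
      have h4 : qd G v = 1 - 2 * s := by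
        rw [hs]
        unfold qd
        rw [← hnd]
        field_simp
        linarith
      have h5 := hq v
      have h6 : 0 ≤ s := by positivity
      rw [h4] at h5 ⊢
      apply Real.le_sqrt_of_sq_le
      have h7 : s ≤ 3 / 8 + ε := by linarith
      -- `(1 - k s)² ≤ 1 - 2 s` iff `k² s ≤ 2 (k - 1)`
      have h8 : (4 / 3 + 2 * ε) ^ 2 * (3 / 8 + ε) ≤ 2 * (1 / 3 + 2 * ε) := by
        nlinarith [mul_pos hε0 hε0, pow_pos hε0 3]
      have h9 : (4 / 3 + 2 * ε) ^ 2 * s ≤ 2 * (1 / 3 + 2 * ε) :=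
        (mul_le_mul_of_nonneg_left h7 (by positivity)).trans h8
      have h10 := mul_le_mul_of_nonneg_right h9 h6
      nlinarith
    have h3 : ∑ v : V, (1 - (4 / 3 + 2 * ε) * (((dg Gᶜ v : ℝ) + 1) / n)) =
        n - (8 / 3 + 4 * ε) * e / n - (4 / 3 + 2 * ε) := by
      rw [sum_sub_distrib, ← mul_sum, ← sum_div, sum_add_distrib, sum_dg, sum_const, card_univ,
        nsmul_eq_mul, ← hnd, ← he]
      field_simp
      ring
    have h4 : n - (8 / 3 + 4 * ε) * e / n - (4 / 3 + 2 * ε) ≤ ∑ v, Real.sqrt (qd G v) := by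
      rw [← h3]
      exact sum_le_sum fun v _ => h2 v
    linarith
  by_cases hcase : (t : ℝ) ≤ 2 / 5 * n
  · have : (1 - μ) * (t : ℝ) ≤ t := by nlinarith
    linarith
  push Not at hcase
  -- `t ≤ n - (8/3 - 8 ε) e / n`
  have h1 : (8 / 3 - 8 * ε) * e / n ≤ n - t := by
    rw [div_le_iff₀ hn]
    have h2 : 0 ≤ n - t := by
      have : (t : ℝ) ≤ n := by
        rw [hnd]
        exact_mod_cast htn
      linarith
    have h3 : (8 / 3 - 8 * ε) * (3 / 8 + ε) ≤ 1 := by nlinarith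
    calc (8 / 3 - 8 * ε) * e ≤ (8 / 3 - 8 * ε) * ((3 / 8 + ε) * n * (n - t)) :=
          mul_le_mul_of_nonneg_left hviz (by linarith)
      _ = ((8 / 3 - 8 * ε) * (3 / 8 + ε)) * (n * (n - t)) := by ring
      _ ≤ 1 * (n * (n - t)) := mul_le_mul_of_nonneg_right h3 (by positivity)
      _ = _ := by ring
  -- `e ≤ n² / 4`
  have h2 : e / n ≤ n / 2 := by
    rw [div_le_iff₀ hn]
    have h3 : (n - t) ≤ n := by linarith
    have h4 : (3 / 8 + ε) * n * (n - t) ≤ (3 / 8 + ε) * n * n :=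
      mul_le_mul_of_nonneg_left h3 (by positivity)
    nlinarith
  have h3 : (8 / 3 + 4 * ε) * e / n = 8 / 3 * (e / n) + 4 * ε * (e / n) := by ring
  have h4 : (8 / 3 - 8 * ε) * e / n = 8 / 3 * (e / n) - 8 * ε * (e / n) := by ring
  rw [h3] at hK2
  rw [h4] at h1
  have h5 : 12 * ε * (e / n) ≤ 12 * ε * (n / 2) := mul_le_mul_of_nonneg_left h2 (by positivity)
  have h6 : 12 * ε * (n / 2) ≤ 15 * ε * t := by nlinarith
  have h7 : 2 ≤ μ / 2 * t := by
    have e6 := hN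
    rw [div_le_iff₀ hμ] at e6
    linarith
  have h8 : 15 * ε * t ≤ μ / 2 * t := by
    refine mul_le_mul_of_nonneg_right ?_ (by linarith)
    linarith
  linarith

/-- **Dense subgraphs of large chromatic number.** -/
theorem coreAR : ∃ ε : ℝ, 0 < ε ∧ ∃ t₀ : ℕ, ∀ (V : Type) (_ : Fintype V) (G : SimpleGraph V)
    (t k : ℕ), t₀ ≤ t → ¬ G.Colorable (t - 1) → ∀ A : Finset V,
    (1 - ε) * (t : ℝ) ≤ (k : ℝ) →
    ¬ (G.comap (Subtype.val : {x // x ∈ A} → V)).Colorable (k - 1) →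
    (∀ v, (5 / 8 - ε) * (A.card : ℝ) ≤
      (dg (G.comap (Subtype.val : {x // x ∈ A} → V)) v : ℝ)) →
    ∀ D : Drw G, crK t ≤ D.cr := by
  classical
  obtain ⟨μ, hμ, hμ1, t1, hU⟩ := coreU
  obtain ⟨N, hN⟩ := exists_nat_ge (16 / μ)
  refine ⟨μ / 200, by positivity, max t1 (max N 2), ?_⟩
  intro V _ G t k ht hcol A hk hkcol hdeg D
  simp only [max_le_iff] at ht
  obtain ⟨ht1, ht2, ht3⟩ := ht
  have htR : (2 : ℝ) ≤ t := by exact_mod_cast ht3
  refine hU V inferInstance G t ht1 hcol A ?_ D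
  have hkR : (t : ℝ) / 2 ≤ k := by nlinarith
  have hk1 : 1 ≤ k := by
    have : (1 : ℝ) ≤ k := by linarith
    exact_mod_cast this
  have h1 := sumK (μ := μ / 2) (by positivity) (by linarith)
    (G.comap (Subtype.val : {x // x ∈ A} → V)) hk1 (by
      have e1 : (N : ℝ) ≤ t := by exact_mod_cast ht2
      have e2 := hN.trans e1
      rw [div_le_iff₀ hμ] at e2
      rw [div_le_iff₀ (by positivity)]
      nlinarith) (by
      intro v
      have := hdeg v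
      rw [Fintype.card_coe]
      have e3 : μ / 2 / 100 = μ / 200 := by ring
      rw [e3]
      exact this) hkcol
  have h2 : (1 - μ / 2) * ((1 - μ / 200) * (t : ℝ)) ≤ (1 - μ / 2) * k :=
    mul_le_mul_of_nonneg_left hk (by linarith)
  have h3 : (1 - μ) ≤ (1 - μ / 2) * (1 - μ / 200) := by nlinarith
  have h4 : (1 - μ) * (t : ℝ) ≤ ((1 - μ / 2) * (1 - μ / 200)) * t :=
    mul_le_mul_of_nonneg_right h3 (by linarith)
  linarith

/-- **Minimum degree at least `(5/8 - ε) n`, `ε` absolute.** -/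
theorem coreMin : ∃ ε : ℝ, 0 < ε ∧ ∃ t₀ : ℕ, ∀ (V : Type) (_ : Fintype V) (G : SimpleGraph V)
    (t : ℕ), t₀ ≤ t → (∀ v, (5 / 8 - ε) * (Fintype.card V : ℝ) ≤ (dg G v : ℝ)) →
    ¬ G.Colorable (t - 1) → ∀ D : Drw G, crK t ≤ D.cr := by
  classical
  obtain ⟨μ, hμ, hμ1, t1, hU⟩ := coreU_univ
  obtain ⟨N, hN⟩ := exists_nat_ge (4 / μ)
  refine ⟨μ / 100, by positivity, max t1 (max N 1), ?_⟩
  intro V _ G t ht hdeg hcol D
  simp only [max_le_iff] at ht
  obtain ⟨ht1, ht2, ht3⟩ := ht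
  have e5 : (N : ℝ) ≤ t := by exact_mod_cast ht2
  exact hU V inferInstance G t ht1 hcol (sumK hμ hμ1 G ht3 (hN.trans e5) hdeg hcol) D

/-- from a drawing bound to the frozen form -/
theorem frz {n t : ℕ} (G : SimpleGraph (Fin n))
    (hle : ∀ D : Drw G, crK t ≤ D.cr) (pos : Fin n → ℝ × ℝ)
    (γ : ∀ u v : Fin n, Path (pos u) (pos v)) (hf : IsFrz G pos γ) :
    ∃ (pos' : Fin t → ℝ × ℝ) (γ' : ∀ u v : Fin t, Path (pos' u) (pos' v)),
      IsFrz (⊤ : SimpleGraph (Fin t)) pos' γ' ∧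
      (XS (⊤ : SimpleGraph (Fin t)) pos' γ').ncard ≤ (XS G pos γ).ncard := by
  obtain ⟨D, hD⟩ := frz_in hf
  obtain ⟨D', hD'⟩ := exists_opt t
  obtain ⟨pos', γ', hfz, hcr⟩ := frz_out D'
  exact ⟨pos', γ', hfz, by rw [hcr, hD', ← hD]; exact hle D⟩

theorem not_col {n t : ℕ} {G : SimpleGraph (Fin n)} (ht : 1 ≤ t)
    (hχ : (t : ℕ∞) ≤ G.chromaticNumber) : ¬ G.Colorable (t - 1) := by
  intro hc
  have h := hc.chromaticNumber_le
  have h2 : (t : ℕ∞) ≤ ((t - 1 : ℕ) : ℕ∞) := le_trans hχ h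
  have h3 : t ≤ t - 1 := by exact_mod_cast h2
  omega

theorem ncard_comap {V : Type} (G : SimpleGraph V) (A : Finset V) (v : {x // x ∈ A}) :
    {x | x ∈ A ∧ G.Adj v.1 x}.ncard =
      {x : {x // x ∈ A} | (G.comap (Subtype.val : {x // x ∈ A} → V)).Adj v x}.ncard := by
  symm
  refine Set.ncard_congr (fun x _ => x.1) ?_ ?_ ?_
  · intro x hx
    exact ⟨x.2, hx⟩
  · intro x y _ _ h
    exact Subtype.ext h
  · intro y hy
    exact ⟨⟨y, hy.1⟩, hy.2, rfl⟩

/-- minimum degree, frozen form -/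
theorem mainMin : ∃ ε : ℝ, 0 < ε ∧ ∃ t₀ : ℕ, ∀ (n : ℕ) (G : SimpleGraph (Fin n)) (t : ℕ),
    t₀ ≤ t → (∀ v, (5 / 8 - ε) * (n : ℝ) ≤ ({x | G.Adj v x}.ncard : ℝ)) →
    (t : ℕ∞) ≤ G.chromaticNumber →
      ∀ (pos : Fin n → ℝ × ℝ) (γ : ∀ u v : Fin n, Path (pos u) (pos v)), IsFrz G pos γ →
        ∃ (pos' : Fin t → ℝ × ℝ) (γ' : ∀ u v : Fin t, Path (pos' u) (pos' v)),
          IsFrz (⊤ : SimpleGraph (Fin t)) pos' γ' ∧
          (XS (⊤ : SimpleGraph (Fin t)) pos' γ').ncard ≤ (XS G pos γ).ncard := by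
  obtain ⟨ε, hε, k0, h0⟩ := coreMin
  refine ⟨ε, hε, max k0 1, ?_⟩
  intro n G t ht hG hχ pos γ hf
  have ht1 : 1 ≤ t := le_trans (le_max_right _ _) ht
  refine frz G (fun D => h0 (Fin n) inferInstance G t (le_trans (le_max_left _ _) ht) ?_
    (not_col ht1 hχ) D) pos γ hf
  intro v
  rw [Fintype.card_fin, dg_eq_ncard]
  exact hG v

/-- dense subgraphs of large chromatic number, frozen form -/
theorem mainAR : ∃ ε : ℝ, 0 < ε ∧ ∃ t₀ : ℕ, ∀ (n : ℕ) (G : SimpleGraph (Fin n)) (t k : ℕ),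
    t₀ ≤ t → ∀ A : Finset (Fin n), (1 - ε) * (t : ℝ) ≤ (k : ℝ) →
    (k : ℕ∞) ≤ (G.comap (Subtype.val : {x : Fin n // x ∈ A} → Fin n)).chromaticNumber →
    (∀ v ∈ A, (5 / 8 - ε) * (A.card : ℝ) ≤ ({x | x ∈ A ∧ G.Adj v x}.ncard : ℝ)) →
    (t : ℕ∞) ≤ G.chromaticNumber →
      ∀ (pos : Fin n → ℝ × ℝ) (γ : ∀ u v : Fin n, Path (pos u) (pos v)), IsFrz G pos γ →
        ∃ (pos' : Fin t → ℝ × ℝ) (γ' : ∀ u v : Fin t, Path (pos' u) (pos' v)),
          IsFrz (⊤ : SimpleGraph (Fin t)) pos' γ' ∧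
          (XS (⊤ : SimpleGraph (Fin t)) pos' γ').ncard ≤ (XS G pos γ).ncard := by
  obtain ⟨ε, hε, k0, h0⟩ := coreAR
  refine ⟨min ε (1 / 2), lt_min hε (by norm_num), max k0 2, ?_⟩
  intro n G t k ht A hk hkχ hdeg hχ pos γ hf
  have ht1 : 2 ≤ t := le_trans (le_max_right _ _) ht
  have htR : (2 : ℝ) ≤ t := by exact_mod_cast ht1
  have he1 : min ε (1 / 2 : ℝ) ≤ ε := min_le_left _ _
  have he2 : min ε (1 / 2 : ℝ) ≤ 1 / 2 := min_le_right _ _
  have hk1 : 1 ≤ k := by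
    have : (1 : ℝ) ≤ k := by nlinarith
    exact_mod_cast this
  refine frz G (fun D => h0 (Fin n) inferInstance G t k (le_trans (le_max_left _ _) ht)
    (not_col (by omega) hχ) A (by nlinarith) ?_ ?_ D) pos γ hf
  · intro hc
    have h := hc.chromaticNumber_le
    have h2 : (k : ℕ∞) ≤ ((k - 1 : ℕ) : ℕ∞) := le_trans hkχ h
    have h3 : k ≤ k - 1 := by exact_mod_cast h2
    omega
  · intro v
    rw [dg_eq_ncard, ← ncard_comap]
    have h1 := hdeg v.1 v.2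
    have h2 : (0 : ℝ) ≤ A.card := Nat.cast_nonneg _
    nlinarith

/-- dense subgraphs, frozen form -/
theorem mainU : ∃ μ : ℝ, 0 < μ ∧ ∃ t₀ : ℕ, ∀ (n : ℕ) (G : SimpleGraph (Fin n)) (t : ℕ),
    t₀ ≤ t → ∀ A : Finset (Fin n),
    (1 - μ) * (t : ℝ) ≤ ∑ v ∈ A, Real.sqrt
      ((2 * ({x | x ∈ A ∧ G.Adj v x}.ncard : ℝ) - (A.card : ℝ)) / (A.card : ℝ)) →
    (t : ℕ∞) ≤ G.chromaticNumber →
      ∀ (pos : Fin n → ℝ × ℝ) (γ : ∀ u v : Fin n, Path (pos u) (pos v)), IsFrz G pos γ →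
        ∃ (pos' : Fin t → ℝ × ℝ) (γ' : ∀ u v : Fin t, Path (pos' u) (pos' v)),
          IsFrz (⊤ : SimpleGraph (Fin t)) pos' γ' ∧
          (XS (⊤ : SimpleGraph (Fin t)) pos' γ').ncard ≤ (XS G pos γ).ncard := by
  obtain ⟨μ, hμ, -, k0, h0⟩ := coreU
  refine ⟨μ, hμ, max k0 1, ?_⟩
  intro n G t ht A hA hχ pos γ hf
  have ht1 : 1 ≤ t := le_trans (le_max_right _ _) ht
  refine frz G (fun D => h0 (Fin n) inferInstance G t (le_trans (le_max_left _ _) ht)
    (not_col ht1 hχ) A ?_ D) pos γ hf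
  refine hA.trans (le_of_eq ?_)
  rw [← sum_coe_sort A]
  refine sum_congr rfl fun v _ => ?_
  congr 1
  unfold qd
  rw [Fintype.card_coe, dg_eq_ncard]
  rw [ncard_comap]

end Pool.Agent.AXM
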