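import Pool.Agent.AXM.Gz

/-! # AXM GM: the mixture

With probability `1 - p` the square root cloud (cut off at `η₁`), with probability `p` the cloud on
the non-neighbours (of weight at least `sqrt η`) of a random vertex `z` of `B₀ = {z : #W_z ≥ s n}`;
all weights are multiplied by `l = 1 + p/8`.  If `#B₀ ≥ β n` then `∑ P load² ≤ 1` for every edge. -/

set_option autoImplicit false

namespace Pool.Agent.AXM

open Finset Pool.Agent.ALB

open Classical in
/-- the vertices with many non-neighbours of positive weight -/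
noncomputable def bz {V : Type} [Fintype V] (G : SimpleGraph V) (η s : ℝ) : Finset V :=
  univ.filter (fun z => s * (Fintype.card V : ℝ) ≤ ((ww G η z).card : ℝ))

theorem mem_bz {V : Type} [Fintype V] {G : SimpleGraph V} {η s : ℝ} {z : V} :
    z ∈ bz G η s ↔ s * (Fintype.card V : ℝ) ≤ ((ww G η z).card : ℝ) := by
  classical
  unfold bz
  rw [mem_filter]
  exact ⟨fun h => h.2, fun h => ⟨mem_univ _, h⟩⟩

theorem wt_ne {V : Type} [Fintype V] {G : SimpleGraph V} {η η₁ : ℝ} (h : η₁ ≤ η) {v : V}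
    (hv : wt G η v ≠ 0) : wt G η₁ v ≠ 0 := by
  unfold wt at hv ⊢
  by_cases h1 : η ≤ qd G v
  · rw [if_pos h1] at hv
    rw [if_pos (h.trans h1)]
    exact hv
  · rw [if_neg h1] at hv
    exact absurd rfl hv

theorem sum_wt_le {V : Type} [Fintype V] (G : SimpleGraph V) (hV : 0 < Fintype.card V) (η : ℝ) :
    ∑ v, wt G η v ≤ (Fintype.card V : ℝ) := by
  calc ∑ v, wt G η v ≤ ∑ _v : V, (1 : ℝ) := sum_le_sum fun v _ => wt_le G hV η v
    _ = _ := by rw [sum_const, card_univ, nsmul_eq_mul, mul_one]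

/-- **The mixture.** -/
theorem gain_mix {η s β : ℝ} (hη : 0 < η) (hη1 : η ≤ 1) (hs : 0 < s) (hs1 : s ≤ 1)
    (hβ : 0 < β) : ∃ p : ℝ, 0 < p ∧ p ≤ 1 ∧ ∀ (κ η₁ : ℝ), 0 < κ → 0 < η₁ → η₁ ≤ η →
      ∀ (V : Type) (_ : Fintype V)
      (G : SimpleGraph V) (D : Drw G), D.NoAdj → 0 < Fintype.card V → ∀ a : ℕ, 4 ≤ a →
      κ * (Fintype.card V : ℝ) ≤ ∑ v, wt G η₁ v →
      β * (Fintype.card V : ℝ) ≤ ((bz G η s).card : ℝ) →
      (crK a : ℝ) / (24 * (a.choose 4 : ℝ)) * ((1 + p / 8) * ∑ v, wt G η₁ v) ^ 4 *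
        (1 - (a : ℝ) ^ 4 * (2 * (2 / s) / κ + 1 / η₁) / (Fintype.card V : ℝ)) ≤
      (1 + B0 (2 / s) κ η₁ * (2 / s) ^ 4 / ((a : ℝ) - 3)) * (D.cr : ℝ) := by
  classical
  set Y : ℝ := 2 / s with hY
  have hY0 : 0 < Y := by positivity
  have hY2 : 2 ≤ Y := by
    rw [hY, le_div_iff₀ hs]
    linarith
  set C₁ : ℝ := 9 * Y ^ 4 / η ^ 2 / β with hC₁
  have hC0 : 0 < C₁ := by positivity
  set p : ℝ := 1 / (4 * C₁ + 2) with hp
  have hp0 : 0 < p := by positivity
  have hp2 : p ≤ 1 / 2 := by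
    rw [hp]
    exact one_div_le_one_div_of_le (by norm_num) (by linarith)
  have hpC : p * C₁ ≤ 1 / 4 := by
    rw [hp, one_div, inv_mul_le_iff₀ (by positivity)]
    linarith
  refine ⟨p, hp0, by linarith, ?_⟩
  intro κ η₁ hκ hη₁ hηη V _ G D hNA hV a ha hK hB
  have hn : (0 : ℝ) < Fintype.card V := by exact_mod_cast hV
  set n : ℝ := (Fintype.card V : ℝ) with hnd
  set K : ℝ := ∑ v, wt G η₁ v with hKd
  have hK0 : 0 < K := lt_of_lt_of_le (mul_pos hκ hn) hK
  have hKn : K ≤ n := sum_wt_le G hV η₁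
  set l : ℝ := 1 + p / 8 with hl
  have hl1 : 1 ≤ l := by linarith
  have hl2 : l ≤ 2 := by linarith
  have hl4 : l ^ 4 ≤ 1 + p := by
    rw [hl]
    nlinarith [mul_pos hp0 hp0, mul_pos (mul_pos hp0 hp0) hp0, pow_pos hp0 4,
      mul_le_mul_of_nonneg_left hp2 (mul_pos hp0 hp0).le,
      mul_le_mul_of_nonneg_left hp2 (mul_pos (mul_pos hp0 hp0) hp0).le,
      mul_le_mul_of_nonneg_left hp2 hp0.le]
  set B₀ := bz G η s with hBd
  have hB0 : (0 : ℝ) < (B₀.card : ℝ) := lt_of_lt_of_le (mul_pos hβ hn) hB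
  -- the weights
  let y : V → ℝ := fun z => if z ∈ B₀ then l * K / ((ww G η z).card : ℝ) else 0
  have hw : ∀ z ∈ B₀, 0 < ((ww G η z).card : ℝ) := fun z hz =>
    lt_of_lt_of_le (mul_pos hs hn) (mem_bz.1 hz)
  have hy0 : ∀ z, 0 ≤ y z := by
    intro z
    change 0 ≤ (if z ∈ B₀ then l * K / ((ww G η z).card : ℝ) else 0)
    split_ifs
    · positivity
    · exact le_rfl
  have hyY : ∀ z, y z ≤ Y := by
    intro z
    change (if z ∈ B₀ then l * K / ((ww G η z).card : ℝ) else 0) ≤ Y
    split_ifs with hz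
    · rw [div_le_iff₀ (hw z hz)]
      calc l * K ≤ 2 * n := mul_le_mul hl2 hKn hK0.le (by norm_num)
        _ = Y * (s * n) := by
            rw [hY]
            field_simp
        _ ≤ Y * ((ww G η z).card : ℝ) := mul_le_mul_of_nonneg_left (mem_bz.1 hz) hY0.le
    · exact hY0.le
  have hxz0 : ∀ z v, 0 ≤ xz G η (y z) z v := by
    intro z v
    unfold xz
    split_ifs
    · exact hy0 z
    · exact le_rfl
  have hxzY : ∀ z v, xz G η (y z) z v ≤ Y := by
    intro z v
    unfold xz
    split_ifs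
    · exact hyY z
    · exact hY0.le
  have hxzs : ∀ z v, xz G η (y z) z v ≠ 0 → wt G η₁ v ≠ 0 := by
    intro z v h
    unfold xz at h
    by_contra hcon
    apply h
    rw [if_neg]
    intro h2
    exact wt_ne hηη (mem_ww.1 h2).2 hcon
  have hxzK : ∀ z ∈ B₀, ∑ v, xz G η (y z) z v = l * K := by
    intro z hz
    rw [sum_xz]
    change ((ww G η z).card : ℝ) * (if z ∈ B₀ then l * K / ((ww G η z).card : ℝ) else 0) = l * K
    rw [if_pos hz]
    have := (hw z hz).ne'
    field_simp
  have hlK : κ * n ≤ l * K := by nlinarith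
  have h1K : ∑ v, l * wt G η₁ v = l * K := by rw [← mul_sum]
  let c1 : Cloud G Y κ η₁ := gcl G hV hη₁ (fun v => l * wt G η₁ v)
    (fun v => mul_nonneg (by linarith) (wt_nonneg G η₁ v))
    (fun v => by
      have h1 := wt_le G hV η₁ v
      have h2 := wt_nonneg G η₁ v
      nlinarith) (by rw [h1K]; exact hlK)
    (fun v h h2 => h (by rw [h2, mul_zero]))
  let c : Option V → Cloud G Y κ η₁ := fun σ => match σ with
    | none => c1
    | some z => if hz : z ∈ B₀ then gcl G hV hη₁ (xz G η (y z) z) (hxz0 z) (hxzY z)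
        (by rw [hxzK z hz]; exact hlK) (hxzs z) else c1
  let P : Option V → ℝ := fun σ => match σ with
    | none => 1 - p
    | some z => if z ∈ B₀ then p / (B₀.card : ℝ) else 0
  have hP : ∀ σ, 0 ≤ P σ := by
    intro σ
    cases σ with
    | none =>
      change 0 ≤ 1 - p
      linarith
    | some z =>
      change 0 ≤ (if z ∈ B₀ then p / (B₀.card : ℝ) else 0)
      split_ifs
      · positivity
      · exact le_rfl
  have hP1 : ∑ σ, P σ = 1 := by
    rw [Fintype.sum_option]
    change 1 - p + ∑ z, (if z ∈ B₀ then p / (B₀.card : ℝ) else 0) = 1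
    rw [sum_ite_mem, univ_inter, sum_const, nsmul_eq_mul]
    field_simp
    ring
  have hcK : ∀ σ, (c σ).K = l * K := by
    intro σ
    cases σ with
    | none => exact h1K
    | some z =>
      by_cases hz : z ∈ B₀
      · have h1 : c (some z) = gcl G hV hη₁ (xz G η (y z) z) (hxz0 z) (hxzY z)
          (by rw [hxzK z hz]; exact hlK) (hxzs z) := dif_pos hz
        rw [h1]
        exact hxzK z hz
      · have h1 : c (some z) = c1 := dif_neg hz
        rw [h1]
        exact h1K
  have hL : ∀ f ∈ ed G, ∑ σ, P σ * (c σ).load f ^ 2 ≤ 1 := by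
    intro f hf
    induction f with
    | _ u v =>
      rw [mem_ed, SimpleGraph.mem_edgeSet] at hf
      rw [Fintype.sum_option]
      have e1 : (c none).load s(u, v) = l ^ 2 * ld G (wt G η₁) u v := by
        rw [Cloud.load_mk]
        change ld G (fun v => l * wt G η₁ v) u v = _
        exact ld_smul G (wt G η₁) l u v
      have e2 : ∀ z, P (some z) * (c (some z)).load s(u, v) ^ 2 ≤
          p / (B₀.card : ℝ) * ld G (xz G η (y z) z) u v ^ 2 := by
        intro z
        by_cases hz : z ∈ B₀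
        · have h1 : c (some z) = gcl G hV hη₁ (xz G η (y z) z) (hxz0 z) (hxzY z)
            (by rw [hxzK z hz]; exact hlK) (hxzs z) := dif_pos hz
          have h2 : P (some z) = p / (B₀.card : ℝ) := if_pos hz
          rw [h1, h2, Cloud.load_mk, gcl_load2]
        · have h2 : P (some z) = 0 := if_neg hz
          rw [h2, zero_mul]
          positivity
      have e3 : ∑ z, P (some z) * (c (some z)).load s(u, v) ^ 2 ≤ p * C₁ * uu G u v := by
        calc ∑ z, P (some z) * (c (some z)).load s(u, v) ^ 2 ≤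
              ∑ z, p / (B₀.card : ℝ) * ld G (xz G η (y z) z) u v ^ 2 :=
                sum_le_sum fun z _ => e2 z
          _ = p / (B₀.card : ℝ) * ∑ z, ld G (xz G η (y z) z) u v ^ 2 := by rw [← mul_sum]
          _ ≤ p / (B₀.card : ℝ) * (9 * Y ^ 4 / η ^ 2 * (n * uu G u v)) :=
                mul_le_mul_of_nonneg_left (sum_sq_le hV hη hη1 hY0 y hy0 hyY hf) (by positivity)
          _ ≤ p / (β * n) * (9 * Y ^ 4 / η ^ 2 * (n * uu G u v)) := by
                refine mul_le_mul_of_nonneg_right ?_ ?_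
                · exact div_le_div_of_nonneg_left hp0.le (mul_pos hβ hn) hB
                · have := (uu_le G hV u v).1
                  positivity
          _ = p * C₁ * uu G u v := by
                rw [hC₁]
                field_simp
      obtain ⟨hu0, hu3⟩ := uu_le G hV u v
      have hld0 := ld_nonneg G (wt G η₁) (wt_nonneg G η₁) u v
      have hP0 : P none = 1 - p := rfl
      rw [hP0, e1]
      have e4 : (1 - p) * (l ^ 2 * ld G (wt G η₁) u v) ^ 2 ≤ (1 - p ^ 2) * ld G (wt G η₁) u v ^ 2 := by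
        calc (1 - p) * (l ^ 2 * ld G (wt G η₁) u v) ^ 2 =
              ((1 - p) * l ^ 4) * ld G (wt G η₁) u v ^ 2 := by ring
          _ ≤ ((1 - p) * (1 + p)) * ld G (wt G η₁) u v ^ 2 :=
              mul_le_mul_of_nonneg_right (mul_le_mul_of_nonneg_left hl4 (by linarith))
                (sq_nonneg _)
          _ = _ := by ring
      by_cases hboth : wt G η₁ u ≠ 0 ∧ wt G η₁ v ≠ 0
      · have e5 := ld_wt_le hV hη₁ hf hboth.1 hboth.2
        have e6 : ld G (wt G η₁) u v ^ 2 ≤ 1 - uu G u v / 2 := by nlinarith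
        have e7 : (1 - p ^ 2) * ld G (wt G η₁) u v ^ 2 ≤ (1 - p ^ 2) * (1 - uu G u v / 2) :=
          mul_le_mul_of_nonneg_left e6 (by nlinarith)
        have e8 : p * C₁ * uu G u v ≤ 1 / 4 * uu G u v := mul_le_mul_of_nonneg_right hpC hu0
        have e9 : p ^ 2 ≤ 1 / 4 := by nlinarith
        nlinarith
      · have e5 : ld G (wt G η₁) u v ≤ 1 / 2 := by
          apply ld_wt_le' hV hη₁ hf
          by_contra hcon
          push Not at hcon
          exact hboth hcon
        have e6 : ld G (wt G η₁) u v ^ 2 ≤ 1 / 4 := by nlinarith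
        have e7 : (1 - p ^ 2) * ld G (wt G η₁) u v ^ 2 ≤ 1 * (1 / 4) :=
          mul_le_mul (by nlinarith) e6 (sq_nonneg _) (by norm_num)
        have e8 : p * C₁ * uu G u v ≤ 1 / 4 * 3 :=
          mul_le_mul hpC hu3 hu0 (by norm_num)
        linarith
  exact mix_ineq D hNA hY0 hκ hη₁ hV ha P hP hP1 c (l * K) hcK hL

end Pool.Agent.AXM
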