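import Pool.Agent.AXM.Cld

/-! # AXM GN: loads for general weights; the two kinds of clouds

`hf G x a b`, `ld G x a b`: loads of the weight function `x`, non-adjacent pairs through a uniform
common neighbour.  `nb G a` = non-neighbours, `cc G a v` = number of common non-neighbours.

(1) Square root weights: for adjacent `a, b` of positive weight
`ld ≤ 1 - u/2`, `u = θ + T_a + T_b`, `θ = cc(a,b)/n`, `T_a = ∑_{v ∈ nb a \ nb b} cc(a,v) / n²`.
(2) Weights `y` on `W_z` (non-neighbours of `z` of positive weight): `∑_z ld² ≤ C₀ n u`. -/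

set_option autoImplicit false

namespace Pool.Agent.AXM

open Finset Pool.Agent.ALB

variable {V : Type} [Fintype V]

open Classical in
/-- `∑ x_a x_v / |R_av|` over the non-neighbours `v` of `a` with `b` a common neighbour -/
noncomputable def hf (G : SimpleGraph V) (x : V → ℝ) (a b : V) : ℝ :=
  ∑ v ∈ univ.filter (fun v => v ≠ a ∧ ¬ G.Adj a v ∧ b ∈ cn G a v),
    x a * x v / ((cn G a v).card : ℝ)

/-- load -/
noncomputable def ld (G : SimpleGraph V) (x : V → ℝ) (a b : V) : ℝ :=
  x a * x b + hf G x a b + hf G x b a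

/-- the cloud of a weight function supported on the support of `wt` -/
noncomputable def gcl (G : SimpleGraph V) (hV : 0 < Fintype.card V) {C κ η : ℝ} (hη : 0 < η)
    (x : V → ℝ) (h0 : ∀ v, 0 ≤ x v) (h1 : ∀ v, x v ≤ C)
    (hK : κ * (Fintype.card V : ℝ) ≤ ∑ v, x v) (hs : ∀ v, x v ≠ 0 → wt G η v ≠ 0) :
    Cloud G C κ η where
  x := x
  R := cn G
  x_nonneg := h0
  x_le := h1
  K_ge := hK
  R_symm := cn_comm G
  R_adj := fun _ _ _ h => mem_cn.1 h
  R_card := fun _ _ _ _ hu hv => (cn_ge G hV hη (hs _ hu) (hs _ hv)).2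

theorem gcl_load2 (G : SimpleGraph V) (hV : 0 < Fintype.card V) {C κ η : ℝ} (hη : 0 < η)
    (x : V → ℝ) (h0 : ∀ v, 0 ≤ x v) (h1 : ∀ v, x v ≤ C)
    (hK : κ * (Fintype.card V : ℝ) ≤ ∑ v, x v) (hs : ∀ v, x v ≠ 0 → wt G η v ≠ 0) (a b : V) :
    (gcl G hV hη x h0 h1 hK hs).load2 a b = ld G x a b := rfl

theorem hf_nonneg (G : SimpleGraph V) (x : V → ℝ) (h0 : ∀ v, 0 ≤ x v) (a b : V) :
    0 ≤ hf G x a b := by
  classical
  unfold hf
  exact sum_nonneg fun v _ => div_nonneg (mul_nonneg (h0 _) (h0 _)) (Nat.cast_nonneg _)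

theorem ld_nonneg (G : SimpleGraph V) (x : V → ℝ) (h0 : ∀ v, 0 ≤ x v) (a b : V) :
    0 ≤ ld G x a b := by
  unfold ld
  have h1 := hf_nonneg G x h0 a b
  have h2 := hf_nonneg G x h0 b a
  have h3 := mul_nonneg (h0 a) (h0 b)
  linarith

theorem hf_smul (G : SimpleGraph V) (x : V → ℝ) (l : ℝ) (a b : V) :
    hf G (fun v => l * x v) a b = l ^ 2 * hf G x a b := by
  classical
  unfold hf
  rw [mul_sum]
  exact sum_congr rfl fun v _ => by ring

theorem ld_smul (G : SimpleGraph V) (x : V → ℝ) (l : ℝ) (a b : V) :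
    ld G (fun v => l * x v) a b = l ^ 2 * ld G x a b := by
  unfold ld
  rw [hf_smul, hf_smul]
  ring

open Classical in
/-- the set of non-neighbours -/
noncomputable def nb (G : SimpleGraph V) (a : V) : Finset V :=
  univ.filter (fun v => v ≠ a ∧ ¬ G.Adj a v)

theorem mem_nb {G : SimpleGraph V} {a v : V} : v ∈ nb G a ↔ v ≠ a ∧ ¬ G.Adj a v := by
  classical
  unfold nb
  rw [mem_filter]
  exact ⟨fun h => h.2, fun h => ⟨mem_univ _, h⟩⟩

theorem nb_symm {G : SimpleGraph V} {a v : V} (h : v ∈ nb G a) : a ∈ nb G v := by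
  rw [mem_nb] at h ⊢
  exact ⟨h.1.symm, fun h' => h.2 h'.symm⟩

open Classical in
/-- the number of common non-neighbours -/
noncomputable def cc (G : SimpleGraph V) (a b : V) : ℕ := (nb G a ∩ nb G b).card

theorem cc_comm (G : SimpleGraph V) (a b : V) : cc G a b = cc G b a := by
  classical
  unfold cc
  rw [inter_comm]

theorem nb_card (G : SimpleGraph V) (a : V) : (nb G a).card + dg G a ≤ Fintype.card V := by
  classical
  unfold dg
  rw [← card_union_of_disjoint]
  · exact card_le_univ _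
  · rw [disjoint_left]
    intro v h2 h3
    rw [mem_nb] at h2
    rw [mem_filter] at h3
    exact h2.2 h3.2

theorem cc_le (G : SimpleGraph V) (a b : V) : cc G a b ≤ Fintype.card V := by
  classical
  exact card_le_univ _

/-- the improved bound for the number of common neighbours -/
theorem cn_card' (G : SimpleGraph V) (u v : V) :
    dg G u + dg G v + cc G u v ≤ (cn G u v).card + Fintype.card V := by
  classical
  unfold dg cn cc
  have h1 := card_union_add_card_inter (univ.filter (fun x => G.Adj u x))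
    (univ.filter (fun x => G.Adj v x))
  have h2 : (univ.filter (fun x => G.Adj u x)) ∩ (univ.filter (fun x => G.Adj v x)) =
      univ.filter (fun w => G.Adj u w ∧ G.Adj v w) := by
    ext w
    simp
  rw [h2] at h1
  have h3 : ((univ.filter (fun x => G.Adj u x)) ∪ (univ.filter (fun x => G.Adj v x))).card +
      (nb G u ∩ nb G v).card ≤ Fintype.card V := by
    rw [← card_union_of_disjoint]
    · exact card_le_univ _
    · rw [disjoint_left]
      intro w h4 h5
      rw [mem_inter, mem_nb, mem_nb] at h5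
      rw [mem_union, mem_filter, mem_filter] at h4
      rcases h4 with h4 | h4
      · exact h5.1.2 h4.2
      · exact h5.2.2 h4.2
  omega

theorem cn_ge' (G : SimpleGraph V) (hV : 0 < Fintype.card V) {η : ℝ} (hη : 0 < η) {u v : V}
    (hu : wt G η u ≠ 0) (hv : wt G η v ≠ 0) :
    (Fintype.card V : ℝ) * (wt G η u * wt G η v) + (cc G u v : ℝ) ≤ ((cn G u v).card : ℝ) := by
  have hn : (0 : ℝ) < Fintype.card V := by exact_mod_cast hV
  obtain ⟨h1, h2⟩ := wt_sq G hη hu
  obtain ⟨h3, h4⟩ := wt_sq G hη hv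
  have h5 : (dg G u : ℝ) + dg G v + cc G u v ≤ ((cn G u v).card : ℝ) + Fintype.card V := by
    exact_mod_cast cn_card' G u v
  have h6 : (Fintype.card V : ℝ) * ((qd G u + qd G v) / 2) = (dg G u : ℝ) + dg G v - Fintype.card V := by
    unfold qd
    field_simp
    ring
  have h7 := sq_nonneg (wt G η u - wt G η v)
  have h8 : wt G η u * wt G η v ≤ (qd G u + qd G v) / 2 := by nlinarith
  have h9 := mul_le_mul_of_nonneg_left h8 hn.le
  linarith

open Classical in
/-- `N(b) \ N(a)`-part of the non-neighbours of `a` -/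
noncomputable def sd (G : SimpleGraph V) (a b : V) : Finset V := nb G a \ nb G b

theorem sd_eq {G : SimpleGraph V} {a b : V} (hab : G.Adj a b) [DecidablePred
    (fun v => v ≠ a ∧ ¬ G.Adj a v ∧ b ∈ cn G a v)] :
    univ.filter (fun v => v ≠ a ∧ ¬ G.Adj a v ∧ b ∈ cn G a v) = sd G a b := by
  classical
  ext v
  unfold sd
  rw [mem_filter, mem_sdiff, mem_nb, mem_nb, mem_cn]
  constructor
  · rintro ⟨-, h1, h2, h3, h4⟩
    exact ⟨⟨h1, h2⟩, fun h5 => h5.2 h4.symm⟩
  · rintro ⟨⟨h1, h2⟩, h3⟩
    refine ⟨mem_univ _, h1, h2, hab, ?_⟩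
    by_contra h4
    apply h3
    refine ⟨?_, fun h5 => h4 h5.symm⟩
    rintro rfl
    exact h2 hab

theorem sd_card (G : SimpleGraph V) (a b : V) : (sd G a b).card + cc G a b = (nb G a).card := by
  classical
  unfold sd cc
  exact card_sdiff_add_card_inter _ _

/-- `T_a` -/
noncomputable def ta (G : SimpleGraph V) (a b : V) : ℝ :=
  (∑ v ∈ sd G a b, (cc G a v : ℝ)) / (Fintype.card V : ℝ) ^ 2

/-- `θ + T_a + T_b` -/
noncomputable def uu (G : SimpleGraph V) (a b : V) : ℝ :=
  (cc G a b : ℝ) / (Fintype.card V : ℝ) + ta G a b + ta G b a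

theorem ta_nonneg (G : SimpleGraph V) (a b : V) : 0 ≤ ta G a b := by
  unfold ta
  exact div_nonneg (sum_nonneg fun v _ => Nat.cast_nonneg _) (by positivity)

theorem ta_le (G : SimpleGraph V) (hV : 0 < Fintype.card V) (a b : V) : ta G a b ≤ 1 := by
  classical
  have hn : (0 : ℝ) < Fintype.card V := by exact_mod_cast hV
  unfold ta
  rw [div_le_one (by positivity)]
  calc ∑ v ∈ sd G a b, (cc G a v : ℝ) ≤ ∑ v ∈ sd G a b, (Fintype.card V : ℝ) :=
        sum_le_sum fun v _ => by exact_mod_cast cc_le G a v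
    _ = ((sd G a b).card : ℝ) * (Fintype.card V : ℝ) := by rw [sum_const, nsmul_eq_mul]
    _ ≤ (Fintype.card V : ℝ) * (Fintype.card V : ℝ) := by
        refine mul_le_mul_of_nonneg_right ?_ hn.le
        exact_mod_cast card_le_univ _
    _ = _ := by ring

theorem uu_le (G : SimpleGraph V) (hV : 0 < Fintype.card V) (a b : V) :
    0 ≤ uu G a b ∧ uu G a b ≤ 3 := by
  have hn : (0 : ℝ) < Fintype.card V := by exact_mod_cast hV
  have h1 := ta_nonneg G a b
  have h2 := ta_nonneg G b a
  have h3 := ta_le G hV a b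
  have h4 := ta_le G hV b a
  have h5 : (cc G a b : ℝ) / (Fintype.card V : ℝ) ≤ 1 := by
    rw [div_le_one hn]
    exact_mod_cast cc_le G a b
  have h6 : 0 ≤ (cc G a b : ℝ) / (Fintype.card V : ℝ) := by positivity
  unfold uu
  constructor <;> linarith

/-- **Square root weights, improved bound.** -/
theorem hf_wt_le {G : SimpleGraph V} (hV : 0 < Fintype.card V) {η : ℝ} (hη : 0 < η) {a b : V}
    (hab : G.Adj a b) :
    hf G (wt G η) a b ≤ ((sd G a b).card : ℝ) / (Fintype.card V : ℝ) - ta G a b / 2 := by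
  classical
  have hn : (0 : ℝ) < Fintype.card V := by exact_mod_cast hV
  unfold hf
  rw [sd_eq hab]
  have h1 : ∀ v ∈ sd G a b, wt G η a * wt G η v / ((cn G a v).card : ℝ) ≤
      1 / (Fintype.card V : ℝ) - (cc G a v : ℝ) / (2 * (Fintype.card V : ℝ) ^ 2) := by
    intro v _
    have hcc : (cc G a v : ℝ) ≤ Fintype.card V := by exact_mod_cast cc_le G a v
    have hcc0 : (0 : ℝ) ≤ (cc G a v : ℝ) := Nat.cast_nonneg _
    have hrhs : 1 / (Fintype.card V : ℝ) - (cc G a v : ℝ) / (2 * (Fintype.card V : ℝ) ^ 2) =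
        (2 * (Fintype.card V : ℝ) - cc G a v) / (2 * (Fintype.card V : ℝ) ^ 2) := by
      field_simp
    rw [hrhs]
    by_cases h0 : wt G η a ≠ 0 ∧ wt G η v ≠ 0
    · have h2 := cn_ge' G hV hη h0.1 h0.2
      have h3 := (cn_ge G hV hη h0.1 h0.2).2
      have h4 : (0 : ℝ) < ((cn G a v).card : ℝ) := lt_of_lt_of_le (mul_pos hη hn) h3
      have ha1 := wt_le G hV η a
      have hv1 := wt_le G hV η v
      have ha0 := wt_nonneg G η a
      have hv0 := wt_nonneg G η v
      have hp0 : 0 ≤ wt G η a * wt G η v := mul_nonneg ha0 hv0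
      have hp1 : wt G η a * wt G η v ≤ 1 := by nlinarith
      rw [div_le_div_iff₀ h4 (by positivity)]
      set P := wt G η a * wt G η v with hP
      set c : ℝ := (cc G a v : ℝ) with hc
      set n : ℝ := (Fintype.card V : ℝ) with hnd
      -- `P * (2 n²) ≤ (2 n - c) * R`, `R ≥ n P + c`
      have h5 : (2 * n - c) * (n * P + c) ≤ (2 * n - c) * ((cn G a v).card : ℝ) :=
        mul_le_mul_of_nonneg_left h2 (by linarith)
      have h6 : P * (2 * n ^ 2) ≤ (2 * n - c) * (n * P + c) := by
        have h7 : (2 * n - c) * (n * P + c) = 2 * n ^ 2 * P + c * (2 * n - n * P - c) := by ring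
        rw [h7]
        have h8 : 0 ≤ c * (2 * n - n * P - c) := by
          refine mul_nonneg hcc0 ?_
          have : n * P ≤ n * 1 := mul_le_mul_of_nonneg_left hp1 hn.le
          linarith
        linarith
      linarith
    · have h1 : wt G η a * wt G η v = 0 := by
        by_contra hne
        exact h0 ⟨fun h => hne (by rw [h, zero_mul]), fun h => hne (by rw [h, mul_zero])⟩
      rw [h1, zero_div]
      exact div_nonneg (by linarith) (by positivity)
  refine (sum_le_sum h1).trans (le_of_eq ?_)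
  rw [sum_sub_distrib, sum_const, nsmul_eq_mul, ← sum_div]
  unfold ta
  ring

theorem ld_wt_le {G : SimpleGraph V} (hV : 0 < Fintype.card V) {η : ℝ} (hη : 0 < η) {a b : V}
    (hab : G.Adj a b) (ha : wt G η a ≠ 0) (hb : wt G η b ≠ 0) :
    ld G (wt G η) a b ≤ 1 - uu G a b / 2 := by
  have hn : (0 : ℝ) < Fintype.card V := by exact_mod_cast hV
  have h1 := hf_wt_le hV hη hab
  have h2 := hf_wt_le hV hη hab.symm
  obtain ⟨h3, -⟩ := wt_sq G hη ha
  obtain ⟨h4, -⟩ := wt_sq G hη hb
  have h5 : ((sd G a b).card : ℝ) + (cc G a b : ℝ) + dg G a ≤ Fintype.card V := by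
    have e1 := sd_card G a b
    have e2 := nb_card G a
    exact_mod_cast (by omega : (sd G a b).card + cc G a b + dg G a ≤ Fintype.card V)
  have h6 : ((sd G b a).card : ℝ) + (cc G a b : ℝ) + dg G b ≤ Fintype.card V := by
    have e1 := sd_card G b a
    have e2 := nb_card G b
    rw [cc_comm G b a] at e1
    exact_mod_cast (by omega : (sd G b a).card + cc G a b + dg G b ≤ Fintype.card V)
  have h7 := sq_nonneg (wt G η a - wt G η b)
  have h8 : wt G η a * wt G η b ≤ (qd G a + qd G b) / 2 := by nlinarith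
  have h9 : (qd G a + qd G b) / 2 = ((dg G a : ℝ) + dg G b - Fintype.card V) / (Fintype.card V : ℝ) := by
    unfold qd
    field_simp
    ring
  have h10 : ((dg G a : ℝ) + dg G b - Fintype.card V) / (Fintype.card V : ℝ) +
      ((sd G a b).card : ℝ) / (Fintype.card V : ℝ) + ((sd G b a).card : ℝ) / (Fintype.card V : ℝ) +
      2 * ((cc G a b : ℝ) / (Fintype.card V : ℝ)) ≤ 1 := by
    have h11 : ((dg G a : ℝ) + dg G b - Fintype.card V) / (Fintype.card V : ℝ) +
      ((sd G a b).card : ℝ) / (Fintype.card V : ℝ) + ((sd G b a).card : ℝ) / (Fintype.card V : ℝ) +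
      2 * ((cc G a b : ℝ) / (Fintype.card V : ℝ)) = (((dg G a : ℝ) + dg G b - Fintype.card V) +
        ((sd G a b).card : ℝ) + ((sd G b a).card : ℝ) + 2 * (cc G a b : ℝ)) /
        (Fintype.card V : ℝ) := by ring
    rw [h11, div_le_one hn]
    linarith
  have h12 : 0 ≤ (cc G a b : ℝ) / (Fintype.card V : ℝ) := by positivity
  unfold ld uu
  rw [h9] at h8
  linarith

theorem hf_zero {G : SimpleGraph V} {x : V → ℝ} {a : V} (b : V) (h : x a = 0) :
    hf G x a b = 0 := by
  classical
  unfold hf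
  refine sum_eq_zero fun v _ => ?_
  rw [h, zero_mul, zero_div]

theorem ld_wt_le' {G : SimpleGraph V} (hV : 0 < Fintype.card V) {η : ℝ} (hη : 0 < η) {a b : V}
    (hab : G.Adj a b) (h : wt G η a = 0 ∨ wt G η b = 0) : ld G (wt G η) a b ≤ 1 / 2 := by
  have hn : (0 : ℝ) < Fintype.card V := by exact_mod_cast hV
  have key : ∀ a b, G.Adj a b → wt G η a = 0 → ld G (wt G η) a b ≤ 1 / 2 := by
    intro a b hab ha
    unfold ld
    rw [hf_zero b ha, ha, zero_mul]
    by_cases hb : wt G η b = 0
    · rw [hf_zero a hb]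
      norm_num
    · obtain ⟨-, h4⟩ := wt_sq G hη hb
      have h1 := hf_wt_le hV hη hab.symm
      have h2 := ta_nonneg G b a
      have h3 : ((sd G b a).card : ℝ) + dg G b ≤ Fintype.card V := by
        have e1 := sd_card G b a
        have e2 := nb_card G b
        exact_mod_cast (by omega : (sd G b a).card + dg G b ≤ Fintype.card V)
      have h5 : (0 : ℝ) < qd G b := lt_of_lt_of_le hη h4
      unfold qd at h5
      rw [lt_div_iff₀ hn, zero_mul] at h5
      have h6 : ((sd G b a).card : ℝ) / (Fintype.card V : ℝ) ≤ 1 / 2 := by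
        rw [div_le_iff₀ hn]
        linarith
      linarith
  rcases h with h | h
  · exact key a b hab h
  · have h1 := key b a hab.symm h
    unfold ld at h1 ⊢
    linarith

end Pool.Agent.AXM
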