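import Pool.Agent.AXM.Gn

/-! # AXM GZ: second moment of the loads of the clouds on non-neighbourhoods -/

set_option autoImplicit false

namespace Pool.Agent.AXM

open Finset Pool.Agent.ALB

variable {V : Type} [Fintype V]

open Classical in
/-- the non-neighbours of `z` of positive weight -/
noncomputable def ww (G : SimpleGraph V) (η : ℝ) (z : V) : Finset V :=
  (nb G z).filter (fun v => wt G η v ≠ 0)

theorem mem_ww {G : SimpleGraph V} {η : ℝ} {z v : V} :
    v ∈ ww G η z ↔ v ∈ nb G z ∧ wt G η v ≠ 0 := by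
  classical
  unfold ww
  rw [mem_filter]

open Classical in
/-- weight `y` on `W_z` -/
noncomputable def xz (G : SimpleGraph V) (η y : ℝ) (z v : V) : ℝ :=
  if v ∈ ww G η z then y else 0

theorem sum_xz (G : SimpleGraph V) (η y : ℝ) (z : V) :
    ∑ v, xz G η y z v = ((ww G η z).card : ℝ) * y := by
  classical
  unfold xz
  rw [sum_ite_mem, univ_inter, sum_const, nsmul_eq_mul]

theorem hf_xz_le {G : SimpleGraph V} (hV : 0 < Fintype.card V) {η : ℝ} (hη : 0 < η) {y : ℝ}
    {a b : V} (hab : G.Adj a b) (z : V) [Decidable (z ∈ nb G a)] :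
    hf G (xz G η y z) a b ≤ y ^ 2 *
      (if z ∈ nb G a then (cc G a z : ℝ) / (η * (Fintype.card V : ℝ)) else 0) := by
  classical
  have hn : (0 : ℝ) < Fintype.card V := by exact_mod_cast hV
  by_cases ha : a ∈ ww G η z
  · obtain ⟨ha1, ha2⟩ := mem_ww.1 ha
    rw [if_pos (nb_symm ha1)]
    unfold hf
    rw [sd_eq hab]
    have h1 : ∑ v ∈ sd G a b, xz G η y z a * xz G η y z v / ((cn G a v).card : ℝ) =
        ∑ v ∈ (sd G a b).filter (fun v => v ∈ ww G η z), y * y / ((cn G a v).card : ℝ) := by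
      rw [sum_filter]
      refine sum_congr rfl fun v _ => ?_
      unfold xz
      rw [if_pos ha]
      split_ifs with hv
      · rfl
      · rw [mul_zero, zero_div]
    rw [h1]
    refine (sum_le_card_nsmul _ _ (y * y / (η * (Fintype.card V : ℝ))) ?_).trans ?_
    · intro v hv
      rw [mem_filter] at hv
      have h2 := (cn_ge G hV hη ha2 (mem_ww.1 hv.2).2).2
      exact div_le_div_of_nonneg_left (mul_self_nonneg y) (mul_pos hη hn) h2
    · rw [nsmul_eq_mul]
      have h3 : ((sd G a b).filter (fun v => v ∈ ww G η z)).card ≤ cc G a z := by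
        unfold cc
        apply card_le_card
        intro v hv
        rw [mem_filter] at hv
        rw [mem_inter]
        refine ⟨?_, (mem_ww.1 hv.2).1⟩
        have h4 := hv.1
        unfold sd at h4
        exact (mem_sdiff.1 h4).1
      have h4 : (((sd G a b).filter (fun v => v ∈ ww G η z)).card : ℝ) ≤ cc G a z := by
        exact_mod_cast h3
      calc (((sd G a b).filter (fun v => v ∈ ww G η z)).card : ℝ) *
            (y * y / (η * (Fintype.card V : ℝ))) ≤
            (cc G a z : ℝ) * (y * y / (η * (Fintype.card V : ℝ))) :=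
              mul_le_mul_of_nonneg_right h4
                (div_nonneg (mul_self_nonneg y) (mul_pos hη hn).le)
        _ = _ := by ring
  · rw [hf_zero b (by unfold xz; rw [if_neg ha])]
    split_ifs
    · exact mul_nonneg (sq_nonneg _) (div_nonneg (Nat.cast_nonneg _) (mul_pos hη hn).le)
    · rw [mul_zero]

theorem ld_xz_le {G : SimpleGraph V} (hV : 0 < Fintype.card V) {η : ℝ} (hη : 0 < η) {y : ℝ}
    {a b : V} (hab : G.Adj a b) (z : V) [Decidable (z ∈ nb G a)]
    [Decidable (z ∈ nb G b)] :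
    ld G (xz G η y z) a b ≤ y ^ 2 *
      ((if z ∈ nb G a then (if z ∈ nb G b then (1 : ℝ) else 0) else 0) +
      (if z ∈ nb G a then (cc G a z : ℝ) / (η * (Fintype.card V : ℝ)) else 0) +
      (if z ∈ nb G b then (cc G b z : ℝ) / (η * (Fintype.card V : ℝ)) else 0)) := by
  classical
  have h1 := hf_xz_le hV hη (y := y) hab z
  have h2 := hf_xz_le hV hη (y := y) hab.symm z
  have h3 : xz G η y z a * xz G η y z b ≤ y ^ 2 *
      (if z ∈ nb G a then (if z ∈ nb G b then (1 : ℝ) else 0) else 0) := by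
    by_cases ha : a ∈ ww G η z
    · by_cases hb : b ∈ ww G η z
      · rw [if_pos (nb_symm (mem_ww.1 ha).1), if_pos (nb_symm (mem_ww.1 hb).1)]
        unfold xz
        rw [if_pos ha, if_pos hb]
        linarith [sq y]
      · have h4 : xz G η y z b = 0 := by unfold xz; rw [if_neg hb]
        rw [h4, mul_zero]
        split_ifs <;> positivity
    · have h4 : xz G η y z a = 0 := by unfold xz; rw [if_neg ha]
      rw [h4, zero_mul]
      split_ifs <;> positivity
  unfold ld
  rw [mul_add, mul_add]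
  linarith

/-- **Second moment.** -/
theorem sum_sq_le {G : SimpleGraph V} (hV : 0 < Fintype.card V) {η : ℝ} (hη : 0 < η)
    (hη1 : η ≤ 1) {Y : ℝ} (hY : 0 < Y) (y : V → ℝ) (hy0 : ∀ z, 0 ≤ y z) (hy : ∀ z, y z ≤ Y)
    {a b : V} (hab : G.Adj a b) :
    ∑ z, ld G (xz G η (y z) z) a b ^ 2 ≤
      9 * Y ^ 4 / η ^ 2 * ((Fintype.card V : ℝ) * uu G a b) := by
  classical
  have hn : (0 : ℝ) < Fintype.card V := by exact_mod_cast hV
  set n : ℝ := (Fintype.card V : ℝ) with hnd
  have hηn : 0 < η * n := mul_pos hη hn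
  have hccn : ∀ a z, (cc G a z : ℝ) ≤ n := fun a z => by
    rw [hnd]
    exact_mod_cast cc_le G a z
  -- pointwise
  have h1 : ∀ z, ld G (xz G η (y z) z) a b ^ 2 ≤ 3 * Y ^ 4 *
      ((if z ∈ nb G a then (if z ∈ nb G b then (1 : ℝ) else 0) else 0) +
      (if z ∈ nb G a then (cc G a z : ℝ) / (η ^ 2 * n) else 0) +
      (if z ∈ nb G b then (cc G b z : ℝ) / (η ^ 2 * n) else 0)) := by
    intro z
    have h2 := ld_xz_le hV hη (y := y z) hab z
    rw [← hnd] at h2
    have h3 : 0 ≤ ld G (xz G η (y z) z) a b := ld_nonneg G _ (fun v => by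
      unfold xz
      split_ifs
      · exact hy0 z
      · exact le_rfl) a b
    set A : ℝ := (if z ∈ nb G a then (if z ∈ nb G b then (1 : ℝ) else 0) else 0) with hA
    set P : ℝ := (if z ∈ nb G a then (cc G a z : ℝ) / (η * n) else 0) with hP
    set Q : ℝ := (if z ∈ nb G b then (cc G b z : ℝ) / (η * n) else 0) with hQ
    have hA2 : A ^ 2 = A := by
      rw [hA]
      split_ifs <;> norm_num
    have hsq : ∀ c : V, ((cc G c z : ℝ) / (η * n)) ^ 2 ≤ (cc G c z : ℝ) / (η ^ 2 * n) := by
      intro c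
      rw [div_pow, div_le_div_iff₀ (by positivity) (by positivity)]
      have h5 := hccn c z
      have h6 : (0 : ℝ) ≤ (cc G c z : ℝ) := Nat.cast_nonneg _
      calc (cc G c z : ℝ) ^ 2 * (η ^ 2 * n) = (cc G c z : ℝ) * (η ^ 2 * n) * (cc G c z : ℝ) := by ring
        _ ≤ (cc G c z : ℝ) * (η ^ 2 * n) * n := mul_le_mul_of_nonneg_left h5 (by positivity)
        _ = _ := by ring
    have hP2 : P ^ 2 ≤ (if z ∈ nb G a then (cc G a z : ℝ) / (η ^ 2 * n) else 0) := by
      rw [hP]
      split_ifs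
      · exact hsq a
      · norm_num
    have hQ2 : Q ^ 2 ≤ (if z ∈ nb G b then (cc G b z : ℝ) / (η ^ 2 * n) else 0) := by
      rw [hQ]
      split_ifs
      · exact hsq b
      · norm_num
    have hyY : y z ^ 2 ≤ Y ^ 2 := pow_le_pow_left₀ (hy0 z) (hy z) 2
    have hA0 : 0 ≤ A := by
      rw [hA]
      split_ifs <;> norm_num
    have hP0 : 0 ≤ P := by
      rw [hP]
      split_ifs
      · positivity
      · exact le_rfl
    have hQ0 : 0 ≤ Q := by
      rw [hQ]
      split_ifs
      · positivity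
      · exact le_rfl
    have h4 : ld G (xz G η (y z) z) a b ≤ Y ^ 2 * (A + P + Q) :=
      h2.trans (mul_le_mul_of_nonneg_right hyY (by positivity))
    have h5 : ld G (xz G η (y z) z) a b ^ 2 ≤ (Y ^ 2 * (A + P + Q)) ^ 2 :=
      pow_le_pow_left₀ h3 h4 2
    have h6 : (A + P + Q) ^ 2 ≤ 3 * (A ^ 2 + P ^ 2 + Q ^ 2) := by
      nlinarith [sq_nonneg (A - P), sq_nonneg (A - Q), sq_nonneg (P - Q)]
    calc ld G (xz G η (y z) z) a b ^ 2 ≤ (Y ^ 2 * (A + P + Q)) ^ 2 := h5
      _ = Y ^ 4 * (A + P + Q) ^ 2 := by ring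
      _ ≤ Y ^ 4 * (3 * (A ^ 2 + P ^ 2 + Q ^ 2)) := mul_le_mul_of_nonneg_left h6 (by positivity)
      _ = 3 * Y ^ 4 * (A + P ^ 2 + Q ^ 2) := by rw [hA2]; ring
      _ ≤ _ := mul_le_mul_of_nonneg_left (by linarith) (by positivity)
  -- the sums
  have hsum : ∀ a b : V, ∑ z, (if z ∈ nb G a then (cc G a z : ℝ) / (η ^ 2 * n) else 0) ≤
      (n * ta G a b + cc G a b) / η ^ 2 := by
    intro a b
    rw [← sum_filter, ← sum_div]
    have h2 : univ.filter (fun z => z ∈ nb G a) = sd G a b ∪ (nb G a ∩ nb G b) := by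
      ext z
      unfold sd
      simp only [mem_filter, mem_univ, true_and, mem_union, mem_sdiff, mem_inter]
      tauto
    have h3 : Disjoint (sd G a b) (nb G a ∩ nb G b) := by
      rw [disjoint_left]
      intro z h4 h5
      unfold sd at h4
      exact (mem_sdiff.1 h4).2 (mem_inter.1 h5).2
    rw [h2, sum_union h3]
    have h4 : ∑ z ∈ sd G a b, (cc G a z : ℝ) = n ^ 2 * ta G a b := by
      unfold ta
      rw [← hnd]
      field_simp
    have h5 : ∑ z ∈ nb G a ∩ nb G b, (cc G a z : ℝ) ≤ n * cc G a b := by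
      calc ∑ z ∈ nb G a ∩ nb G b, (cc G a z : ℝ) ≤ ∑ z ∈ nb G a ∩ nb G b, n :=
            sum_le_sum fun z _ => hccn a z
        _ = n * cc G a b := by
            rw [sum_const, nsmul_eq_mul, mul_comm]
            rfl
    rw [h4, div_le_div_iff₀ (by positivity) (by positivity)]
    have h6 : n ^ 2 * ta G a b + ∑ z ∈ nb G a ∩ nb G b, (cc G a z : ℝ) ≤
        n * (n * ta G a b + cc G a b) := by
      calc _ ≤ n ^ 2 * ta G a b + n * cc G a b := by linarith
        _ = _ := by ring
    calc _ ≤ n * (n * ta G a b + cc G a b) * η ^ 2 := mul_le_mul_of_nonneg_right h6 (by positivity)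
      _ = _ := by ring
  have hA : ∑ z, (if z ∈ nb G a then (if z ∈ nb G b then (1 : ℝ) else 0) else 0) = cc G a b := by
    have h2 : ∀ z, (if z ∈ nb G a then (if z ∈ nb G b then (1 : ℝ) else 0) else 0) =
        if z ∈ nb G a ∩ nb G b then (1 : ℝ) else 0 := by
      intro z
      by_cases h3 : z ∈ nb G a <;> by_cases h4 : z ∈ nb G b <;> simp [h3, h4]
    simp only [h2]
    rw [sum_ite_mem, univ_inter, sum_const, nsmul_eq_mul, mul_one]
    rfl
  calc ∑ z, ld G (xz G η (y z) z) a b ^ 2 ≤ ∑ z, 3 * Y ^ 4 *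
      ((if z ∈ nb G a then (if z ∈ nb G b then (1 : ℝ) else 0) else 0) +
      (if z ∈ nb G a then (cc G a z : ℝ) / (η ^ 2 * n) else 0) +
      (if z ∈ nb G b then (cc G b z : ℝ) / (η ^ 2 * n) else 0)) := sum_le_sum fun z _ => h1 z
    _ = 3 * Y ^ 4 * (cc G a b + ∑ z, (if z ∈ nb G a then (cc G a z : ℝ) / (η ^ 2 * n) else 0) +
        ∑ z, (if z ∈ nb G b then (cc G b z : ℝ) / (η ^ 2 * n) else 0)) := by
        rw [← mul_sum, sum_add_distrib, sum_add_distrib, hA]
    _ ≤ 3 * Y ^ 4 * (cc G a b + (n * ta G a b + cc G a b) / η ^ 2 +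
        (n * ta G b a + cc G b a) / η ^ 2) := by
        refine mul_le_mul_of_nonneg_left ?_ (by positivity)
        have h2 := hsum a b
        have h3 := hsum b a
        linarith
    _ ≤ 3 * Y ^ 4 * ((3 * (cc G a b + n * ta G a b + n * ta G b a)) / η ^ 2) := by
        refine mul_le_mul_of_nonneg_left ?_ (by positivity)
        rw [cc_comm G b a]
        have h2 : (cc G a b : ℝ) ≤ cc G a b / η ^ 2 := by
          rw [le_div_iff₀ (by positivity)]
          have h3 : η ^ 2 ≤ 1 := by nlinarith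
          have h4 : (0 : ℝ) ≤ cc G a b := Nat.cast_nonneg _
          nlinarith
        have h3 := ta_nonneg G a b
        have h4 := ta_nonneg G b a
        have h5 : (3 * ((cc G a b : ℝ) + n * ta G a b + n * ta G b a)) / η ^ 2 =
            (cc G a b : ℝ) / η ^ 2 + (n * ta G a b + cc G a b) / η ^ 2 +
            (n * ta G b a + cc G a b) / η ^ 2 + 2 * (n * ta G a b + n * ta G b a) / η ^ 2 := by
          ring
        rw [h5]
        have h6 : 0 ≤ 2 * (n * ta G a b + n * ta G b a) / η ^ 2 := by positivity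
        linarith
    _ = _ := by
        unfold uu
        rw [← hnd]
        field_simp
        ring

end Pool.Agent.AXM
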