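import Pool.Agent.ALC.RB
import Pool.Agent.ALC.RC
import Pool.Agent.ALC.Gl
import Pool.Agent.ALC.Cr
import Pool.Agent.ALC.Kd
import Pool.Agent.ALB.Res
import Pool.Agent.ALB.NoAdj

/-! # AXM NR: graphs with a near-clique

`mi G T` = number of ordered pairs of elements of `T` (with the diagonal) which are not edges.
If `G` is not `r`-colourable and has a set `T`, `(1 - τ) r ≤ #T ≤ r + 1`, `mi G T ≤ τ r²`, then
`cr(G) ≥ cr(K_{r+1})`. -/

set_option autoImplicit false

namespace Pool.Agent.AXM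

open Finset Pool.Agent.ALB Pool.Agent.ALC

open Classical in
noncomputable def mi {V : Type} (G : SimpleGraph V) (T : Finset V) : ℕ :=
  ((T ×ˢ T).filter (fun q => ¬ G.Adj q.1 q.2)).card

theorem exists_T' {V : Type} [Fintype V] [DecidableEq V] {r : ℕ} (hr : r ≤ Fintype.card V) (T : Finset V) :
    ∃ T' : Finset V, T'.card = r ∧ (T' \ T).card ≤ r - T.card := by
  rcases Nat.lt_or_ge r T.card with h | h
  · obtain ⟨T', h1, h2⟩ := exists_subset_card_eq (s := T) (n := r) h.le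
    refine ⟨T', h2, ?_⟩
    rw [sdiff_eq_empty_iff_subset.2 h1, card_empty]
    exact Nat.zero_le _
  · obtain ⟨T', h1, -, h3⟩ := exists_subsuperset_card_eq (subset_univ T) h
      (by rw [card_univ]; exact hr)
    refine ⟨T', h3, ?_⟩
    rw [card_sdiff_of_subset h1, h3]

theorem near0 {c : ℝ} (hc : Lim c) {C ρ : ℝ} (hC : 0 < C) (hρ : 0 < ρ) :
    ∃ τ : ℝ, 0 < τ ∧ ∃ r₀ : ℕ, ∀ (V : Type) (_ : Fintype V) (G : SimpleGraph V) (D : Drw G),
      D.NoAdj → ∀ r : ℕ, r₀ ≤ r → (Fintype.card V : ℝ) ≤ C * (r : ℝ) → r ≤ Fintype.card V →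
      ∀ T : Finset V, (1 - τ) * (r : ℝ) ≤ (T.card : ℝ) →
        (mi G T : ℝ) ≤ τ * (r : ℝ) ^ 2 → ∀ Λ : Finset (Sym2 V), (∀ e ∈ Λ, e ∈ G.edgeSet) →
        (∀ e ∈ Λ, ∃ x ∈ e, x ∉ T) → ρ * (r : ℝ) ^ 2 ≤ (Λ.card : ℝ) → crK (r + 1) ≤ D.cr := by
  classical
  obtain ⟨η, hη, r₁, hgl⟩ := gl hc hC hρ
  refine ⟨η / 3, by positivity, max r₁ 1, ?_⟩
  intro V _ G D hNA r hr hCr hrV T hT1 hmi Λ hΛ hΛT hΛc
  have hr1 : 0 < r := lt_of_lt_of_le one_pos ((le_max_right _ _).trans hr)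
  have hrR : (0 : ℝ) < r := by exact_mod_cast hr1
  obtain ⟨T', hT'c, hT'd⟩ := exists_T' hrV T
  have hcard : Fintype.card (Fin r) = Fintype.card {x // x ∈ T'} := by
    rw [Fintype.card_fin, Fintype.card_coe, hT'c]
  let e : Fin r ≃ {x // x ∈ T'} := Fintype.equivOfCardEq hcard
  let Y : Fin r → V := fun i => (e i).1
  have hY : Function.Injective Y := fun i j h => e.injective (Subtype.ext h)
  let f : V → Fin r := fun x => if h : x ∈ T' then e.symm ⟨x, h⟩ else ⟨0, hr1⟩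
  have hfY : ∀ i, f (Y i) = i := by
    intro i
    have h1 : f (Y i) = e.symm ⟨Y i, (e i).2⟩ := dif_pos (e i).2
    rw [h1]
    have h2 : (⟨Y i, (e i).2⟩ : {x // x ∈ T'}) = e i := Subtype.ext rfl
    rw [h2, Equiv.symm_apply_apply]
  let Γ : SimpleGraph (Fin r) :=
    { Adj := fun i j => G.Adj (Y i) (Y j) ∧ Y i ∈ T ∧ Y j ∈ T
      symm.symm := fun i j h => ⟨h.1.symm, h.2.2, h.2.1⟩
      loopless := ⟨fun i h => h.1.ne rfl⟩ }
  have hΓ : ∀ i j, Γ.Adj i j ↔ G.Adj (Y i) (Y j) ∧ Y i ∈ T ∧ Y j ∈ T := fun i j => Iff.rfl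
  have hPS : PS G f Y Γ (fun p => {p.map Y}) := by
    refine ⟨hfY, ?_, ?_⟩
    · intro p hp q hq
      rw [mem_singleton] at hq
      subst hq
      refine ⟨?_, ?_⟩
      · induction p using Sym2.ind with
        | _ i j =>
          rw [SimpleGraph.mem_edgeSet, hΓ] at hp
          exact hp.1
      · rw [Sym2.map_map]
        have h1 : f ∘ Y = id := funext hfY
        rw [h1, Sym2.map_id]
        rfl
    · intro i j hij
      refine ⟨SimpleGraph.Walk.cons ((hΓ i j).1 hij).1 SimpleGraph.Walk.nil, ?_⟩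
      intro q hq
      simp only [SimpleGraph.Walk.edges_cons, SimpleGraph.Walk.edges_nil, List.mem_singleton] at hq
      rw [hq, mem_singleton]
      rfl
  have hbad : (univ.filter (fun i : Fin r => Y i ∉ T)).card ≤ r - T.card := by
    refine le_trans ?_ hT'd
    refine card_le_card_of_injOn Y ?_ hY.injOn
    intro i hi
    rw [mem_coe, mem_filter] at hi
    rw [mem_coe, mem_sdiff]
    exact ⟨(e i).2, hi.2⟩
  have hmiss : miss Γ ≤ 2 * ((r - T.card) * r) + mi G T := by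
    unfold miss
    have h1 : {p : Fin r × Fin r | ¬ Γ.Adj p.1 p.2} ⊆
        (((univ.filter (fun i : Fin r => Y i ∉ T)) ×ˢ (univ : Finset (Fin r)) ∪
          (univ : Finset (Fin r)) ×ˢ (univ.filter (fun i : Fin r => Y i ∉ T)) ∪
          (univ.filter (fun p : Fin r × Fin r => Y p.1 ∈ T ∧ Y p.2 ∈ T ∧
            ¬ G.Adj (Y p.1) (Y p.2))) : Finset (Fin r × Fin r)) : Set (Fin r × Fin r)) := by
      rintro ⟨i, j⟩ hp
      simp only [Set.mem_ofPred_eq, hΓ] at hp
      simp only [mem_coe, mem_union, mem_product, mem_filter, mem_univ, true_and, and_true]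
      tauto
    refine (Set.ncard_le_ncard h1 (Finset.finite_toSet _)).trans ?_
    rw [Set.ncard_coe_finset]
    refine (card_union_le _ _).trans ?_
    have h2 : (univ.filter (fun p : Fin r × Fin r => Y p.1 ∈ T ∧ Y p.2 ∈ T ∧
        ¬ G.Adj (Y p.1) (Y p.2))).card ≤ mi G T := by
      unfold mi
      refine card_le_card_of_injOn (fun p => (Y p.1, Y p.2)) ?_ ?_
      · intro p hp
        rw [mem_coe, mem_filter] at hp
        rw [mem_coe, mem_filter, mem_product]
        exact ⟨⟨hp.2.1, hp.2.2.1⟩, hp.2.2.2⟩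
      · intro p _ q _ h
        rw [Prod.mk.injEq] at h
        exact Prod.ext (hY h.1) (hY h.2)
    have h3 : ((univ.filter (fun i : Fin r => Y i ∉ T)) ×ˢ (univ : Finset (Fin r)) ∪
          (univ : Finset (Fin r)) ×ˢ (univ.filter (fun i : Fin r => Y i ∉ T))).card ≤
          2 * ((r - T.card) * r) := by
      refine (card_union_le _ _).trans ?_
      rw [card_product, card_product, card_univ, Fintype.card_fin]
      have h4 := Nat.mul_le_mul_right r hbad
      have h5 : r * (univ.filter (fun i : Fin r => Y i ∉ T)).card ≤ (r - T.card) * r := by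
        rw [mul_comm]
        exact h4
      omega
    omega
  have hmissR : (miss Γ : ℝ) ≤ η * (r : ℝ) ^ 2 := by
    have h1 : (miss Γ : ℝ) ≤ 2 * (((r - T.card : ℕ) : ℝ) * r) + mi G T := by exact_mod_cast hmiss
    have h2 : ((r - T.card : ℕ) : ℝ) ≤ η / 3 * r := by
      rcases Nat.lt_or_ge r T.card with h | h
      · rw [Nat.sub_eq_zero_of_le h.le]
        simp only [Nat.cast_zero]
        positivity
      · rw [Nat.cast_sub h]
        linarith
    have h3 : ((r - T.card : ℕ) : ℝ) * r ≤ η / 3 * r * r := mul_le_mul_of_nonneg_right h2 hrR.le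
    nlinarith
  refine hgl V inferInstance G D hNA r ((le_max_left _ _).trans hr) hCr f Y Γ
    (fun p => {p.map Y}) Λ hPS hmissR hΛ ?_ hΛc
  intro p hp q hq hqΛ
  rw [mem_singleton] at hq
  subst hq
  obtain ⟨x, hx, hxT⟩ := hΛT _ hqΛ
  induction p using Sym2.ind with
  | _ i j =>
    rw [SimpleGraph.mem_edgeSet, hΓ] at hp
    rw [Sym2.map_mk, Sym2.mem_iff] at hx
    rcases hx with rfl | rfl
    · exact hxT hp.2.1
    · exact hxT hp.2.2

/-- **Near-cliques.** -/
theorem near {c : ℝ} (hc : Lim c) : ∃ τ : ℝ, 0 < τ ∧ ∃ r₀ : ℕ, ∀ (V : Type) (_ : Fintype V)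
    (G : SimpleGraph V) (D : Drw G) (r : ℕ), r₀ ≤ r → ¬ G.Colorable r →
      ∀ T : Finset V, (1 - τ) * (r : ℝ) ≤ (T.card : ℝ) → T.card ≤ r + 1 →
        (mi G T : ℝ) ≤ τ * (r : ℝ) ^ 2 → crK (r + 1) ≤ D.cr := by
  classical
  obtain ⟨C, hC, r3, h3⟩ := rC hc
  obtain ⟨r2, h2⟩ := rB hc
  obtain ⟨τ, hτ, r4, h4⟩ := near0 hc (C := C + 3) (ρ := 1 / 16) (by positivity) (by norm_num)
  refine ⟨τ, hτ, max (max r3 r2) (max r4 100), ?_⟩
  intro V _ G D r hr hχ T hT1 hT2 hmi
  simp only [max_le_iff] at hr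
  obtain ⟨⟨hr3, hr2⟩, hr4, hr100⟩ := hr
  have hr0 : 0 < r := by omega
  have hrR : (100 : ℝ) ≤ r := by exact_mod_cast hr100
  obtain ⟨A, hA⟩ := exists_vc hr0 hχ
  by_cases hbig : C * (r : ℝ) ≤ (Fintype.card {x // x ∈ A} : ℝ)
  · obtain ⟨D1, hD1⟩ := exists_comap D (Subtype.val : {x // x ∈ A} → V) Subtype.val_injective
    obtain ⟨D2, hD2, hNA⟩ := exists_noAdj D1
    exact (h3 _ _ _ D2 hNA r hr3 (fun x => vc_deg hA x) hbig).trans (hD2.trans hD1)
  by_cases hsm : 6 * Fintype.card {x // x ∈ A} ≤ 7 * r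
  · obtain ⟨D1, hD1⟩ := exists_comap D (Subtype.val : {x // x ∈ A} → V) Subtype.val_injective
    exact (h2 _ _ _ D1 r hr2 hA hsm).trans hD1
  push Not at hbig hsm
  rw [Fintype.card_coe] at hbig hsm
  -- the union
  set U : Finset V := T ∪ A with hU
  let GU : SimpleGraph {x // x ∈ U} := G.comap (Subtype.val : {x // x ∈ U} → V)
  obtain ⟨D3, hD3⟩ := exists_comap D (Subtype.val : {x // x ∈ U} → V) Subtype.val_injective
  obtain ⟨D4, hD4, hNA⟩ := exists_noAdj D3
  refine le_trans ?_ (hD4.trans hD3)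
  let TU : Finset {x // x ∈ U} := univ.filter (fun x => x.1 ∈ T)
  have hTU : TU.card = T.card := by
    refine card_bij (fun x _ => x.1) ?_ ?_ ?_
    · intro x hx
      exact (mem_filter.1 hx).2
    · intro x _ y _ h
      exact Subtype.ext h
    · intro x hx
      exact ⟨⟨x, mem_union_left _ hx⟩, mem_filter.2 ⟨mem_univ _, hx⟩, rfl⟩
  have hmU : mi GU TU ≤ mi G T := by
    unfold mi
    refine card_le_card_of_injOn (fun p => (p.1.1, p.2.1)) ?_ ?_
    · intro p hp
      rw [mem_coe, mem_filter, mem_product] at hp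
      rw [mem_coe, mem_filter, mem_product]
      exact ⟨⟨(mem_filter.1 hp.1.1).2, (mem_filter.1 hp.1.2).2⟩, hp.2⟩
    · intro p _ q _ h
      rw [Prod.mk.injEq] at h
      exact Prod.ext (Subtype.ext h.1) (Subtype.ext h.2)
  -- the unused edges
  let Pq : Finset ({x // x ∈ U} × {x // x ∈ U}) :=
    univ.filter (fun q => q.1.1 ∈ A ∧ q.1.1 ∉ T ∧ q.2.1 ∈ A ∧ G.Adj q.1.1 q.2.1)
  let Λ : Finset (Sym2 {x // x ∈ U}) := Pq.image (fun q => s(q.1, q.2))
  have hΛ1 : ∀ e ∈ Λ, e ∈ GU.edgeSet := by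
    intro e he
    obtain ⟨q, hq, rfl⟩ := mem_image.1 he
    exact (mem_filter.1 hq).2.2.2.2
  have hΛ2 : ∀ e ∈ Λ, ∃ x ∈ e, x ∉ TU := by
    intro e he
    obtain ⟨q, hq, rfl⟩ := mem_image.1 he
    refine ⟨q.1, Sym2.mem_mk_left _ _, ?_⟩
    intro h
    exact (mem_filter.1 hq).2.2.1 (mem_filter.1 h).2
  have hPq : Pq.card ≤ 2 * Λ.card := by
    refine card_le_mul_card_image Pq 2 ?_
    intro e he
    obtain ⟨q, -, rfl⟩ := mem_image.1 he
    have h1 : (Pq.filter (fun x => s(x.1, x.2) = s(q.1, q.2))) ⊆ {(q.1, q.2), (q.2, q.1)} := by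
      intro x hx
      have h2 := (mem_filter.1 hx).2
      rw [Sym2.eq_iff] at h2
      rw [mem_insert, mem_singleton]
      rcases h2 with h2 | h2
      · exact Or.inl (Prod.ext h2.1 h2.2)
      · exact Or.inr (Prod.ext h2.1 h2.2)
    exact (card_le_card h1).trans card_le_two
  have hPq2 : (A \ T).card * r ≤ Pq.card := by
    have h1 : Pq.card = ∑ x ∈ (univ.filter (fun x : {x // x ∈ U} => x.1 ∈ A ∧ x.1 ∉ T)),
        (univ.filter (fun y : {x // x ∈ U} => y.1 ∈ A ∧ G.Adj x.1 y.1)).card := by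
      rw [← card_sigma]
      refine card_bij' (fun q _ => ⟨q.1, q.2⟩) (fun s _ => (s.1, s.2)) ?_ ?_ ?_ ?_
      · intro q hq
        have h2 := (mem_filter.1 hq).2
        rw [mem_sigma]
        exact ⟨mem_filter.2 ⟨mem_univ _, h2.1, h2.2.1⟩, mem_filter.2 ⟨mem_univ _, h2.2.2.1, h2.2.2.2⟩⟩
      · intro s hs
        rw [mem_sigma] at hs
        have h2 := (mem_filter.1 hs.1).2
        have h3 := (mem_filter.1 hs.2).2
        exact mem_filter.2 ⟨mem_univ _, h2.1, h2.2, h3.1, h3.2⟩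
      · intro q _
        rfl
      · intro s _
        rfl
    have h2 : (univ.filter (fun x : {x // x ∈ U} => x.1 ∈ A ∧ x.1 ∉ T)).card = (A \ T).card := by
      refine card_bij (fun x _ => x.1) ?_ ?_ ?_
      · intro x hx
        exact mem_sdiff.2 (mem_filter.1 hx).2
      · intro x _ y _ h
        exact Subtype.ext h
      · intro x hx
        rw [mem_sdiff] at hx
        exact ⟨⟨x, mem_union_right _ hx.1⟩, mem_filter.2 ⟨mem_univ _, hx⟩, rfl⟩
    rw [h1, ← h2, ← smul_eq_mul]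
    refine card_nsmul_le_sum _ _ _ ?_
    intro x hx
    have hxA := (mem_filter.1 hx).2.1
    have h3 := vc_deg hA ⟨x.1, hxA⟩
    refine h3.trans ?_
    rw [Set.ncard_eq_toFinset_card _ (Set.toFinite _)]
    refine card_le_card_of_injOn (fun y => (⟨y.1, mem_union_right _ y.2⟩ : {x // x ∈ U})) ?_ ?_
    · intro y hy
      rw [mem_coe, Set.Finite.mem_toFinset] at hy
      rw [mem_coe, mem_filter]
      exact ⟨mem_univ _, y.2, hy⟩
    · intro y _ z _ h
      exact Subtype.ext (congrArg (fun w : {x // x ∈ U} => w.1) h)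
  have hAT : A.card ≤ (A \ T).card + T.card := by
    have h1 := card_le_card (show A ⊆ (A \ T) ∪ T from fun x hx => by
      rw [mem_union, mem_sdiff]
      by_cases h : x ∈ T
      · exact Or.inr h
      · exact Or.inl ⟨hx, h⟩)
    exact h1.trans (card_union_le _ _)
  have hΛc : 1 / 16 * (r : ℝ) ^ 2 ≤ (Λ.card : ℝ) := by
    have h1 : r ≤ 8 * (A \ T).card := by omega
    have h2 : r * r ≤ 8 * (A \ T).card * r := Nat.mul_le_mul_right r h1
    have h5 : r * r ≤ 16 * Λ.card := by nlinarith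
    have h6 : (r : ℝ) * r ≤ 16 * (Λ.card : ℝ) := by exact_mod_cast h5
    nlinarith
  have hUc : Fintype.card {x // x ∈ U} = U.card := Fintype.card_coe _
  have hU1 : U.card ≤ T.card + A.card := card_union_le _ _
  have hU2 : A.card ≤ U.card := card_le_card subset_union_right
  refine h4 {x // x ∈ U} inferInstance GU D4 hNA r hr4 ?_ ?_ TU ?_ ?_ Λ hΛ1 hΛ2 hΛc
  · rw [hUc]
    have h1 : (U.card : ℝ) ≤ (T.card : ℝ) + A.card := by exact_mod_cast hU1
    have h2 : (T.card : ℝ) ≤ r + 1 := by exact_mod_cast hT2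
    nlinarith
  · rw [hUc]
    omega
  · rw [hTU]
    exact hT1
  · have h1 : (mi GU TU : ℝ) ≤ mi G T := by exact_mod_cast hmU
    linarith

end Pool.Agent.AXM
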