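import Pool.Agent.AXM.Fin
import Pool.Agent.ALB.Ce
import Pool.Agent.ALB.Crit
import Pool.Agent.ALB.StdX

/-! # AXM ROB: a large part of independence number at most two

`χ(G) ≥ t` and some induced subgraph `F` with `α(F) ≤ 2` and `χ(F) ≥ (1 - ε) t` imply
`cr(G) ≥ cr(K_t)` for large `t`.

Proof.  The critical subgraph of `F` in standard form, `k = |H| + |ι| + |β| ≥ (1 - ε) t`.  If
`k ≤ 4 |β|` the clouds of `ALB.clouds_exist` have total weight `(1 + 1/200) k`.  If `4 |β| ≤ k`
(or if it is complete) the square root weights have sum at least `k - 2`: `coreU`. -/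

set_option autoImplicit false

namespace Pool.Agent.AXM

open Finset Pool.Agent.ALB

theorem dg_tdeg {V : Type} [Fintype V] (G : SimpleGraph V) (x : V) :
    dg G x + tdeg G x + 1 = Fintype.card V := by
  classical
  have h1 := dg_compl G x
  have h2 : dg Gᶜ x = tdeg G x := by
    unfold dg tdeg
    congr 1
    ext y
    simp only [mem_filter, mem_univ, true_and, SimpleGraph.compl_adj]
    exact ⟨fun h => ⟨h.1.symm, h.2⟩, fun h => ⟨h.1.symm, h.2⟩⟩
  omega

/-- `coreU` for an injection -/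
theorem coreU_inj : ∃ μ : ℝ, 0 < μ ∧ μ ≤ 1 / 4 ∧ ∃ t₀ : ℕ, ∀ (V W : Type) (_ : Fintype V)
    (_ : Fintype W) (G : SimpleGraph V) (φ : W → V), Function.Injective φ → ∀ (t : ℕ), t₀ ≤ t →
    ¬ G.Colorable (t - 1) → (1 - μ) * (t : ℝ) ≤ ∑ w, Real.sqrt (qd (G.comap φ) w) →
    ∀ D : Drw G, crK t ≤ D.cr := by
  classical
  obtain ⟨μ, hμ, hμ1, t₀, h⟩ := coreU
  refine ⟨μ, hμ, hμ1, t₀, ?_⟩
  intro V W _ _ G φ hφ t ht hcol hK D
  refine h V inferInstance G t ht hcol (univ.image φ) ?_ D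
  let e : W ≃ {x : V // x ∈ univ.image φ} :=
    Equiv.ofBijective (fun w => ⟨φ w, mem_image_of_mem φ (mem_univ w)⟩) (by
      constructor
      · intro a b hab
        exact hφ (congrArg Subtype.val hab)
      · rintro ⟨x, hx⟩
        obtain ⟨w, -, hw⟩ := mem_image.1 hx
        exact ⟨w, Subtype.ext hw⟩)
  have h1 : ∀ w : W, qd (G.comap φ) w =
      qd (G.comap (Subtype.val : {x // x ∈ univ.image φ} → V)) (e w) := by
    intro w
    have h2 : dg (G.comap φ) w =
        dg (G.comap (Subtype.val : {x // x ∈ univ.image φ} → V)) (e w) := by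
      have h4 := dg_comap (G.comap (Subtype.val : {x // x ∈ univ.image φ} → V)) e w
      rw [dg_eq_ncard, dg_eq_ncard] at h4
      rw [dg_eq_ncard, dg_eq_ncard]
      exact h4
    have h3 : ∀ i : Fintype {x : V // x ∈ univ.image φ}, @Fintype.card _ i = Fintype.card W :=
      fun i => (@Fintype.card_congr _ _ _ i e).symm
    unfold qd
    rw [h3, h2]
  simp only [h1] at hK
  rw [Equiv.sum_comp e (fun v =>
    Real.sqrt (qd (G.comap (Subtype.val : {x // x ∈ univ.image φ} → V)) v))] at hK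
  exact hK

/-- weights of a complete graph -/
theorem wt_complete {W : Type} [Fintype W] {F : SimpleGraph W} (h : ∀ x y, x ≠ y → F.Adj x y)
    (hV : 0 < Fintype.card W) :
    (Fintype.card W : ℝ) - 2 ≤ ∑ w, Real.sqrt (qd F w) := by
  classical
  have hn : (0 : ℝ) < Fintype.card W := by exact_mod_cast hV
  have h1 : ∀ w, 1 - 2 / (Fintype.card W : ℝ) ≤ Real.sqrt (qd F w) := by
    intro w
    have h2 : tdeg F w = 0 := by
      unfold tdeg
      rw [card_eq_zero, filter_eq_empty_iff]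
      rintro y - ⟨h3, h4⟩
      exact h4 (h w y h3.symm)
    have h3 := dg_tdeg F w
    rw [h2] at h3
    have h4 : (dg F w : ℝ) + 1 = Fintype.card W := by
      have : dg F w + 1 = Fintype.card W := by omega
      exact_mod_cast this
    have h5 : qd F w = 1 - 2 / (Fintype.card W : ℝ) := by
      unfold qd
      field_simp
      linarith
    rw [h5]
    by_cases h6 : 0 ≤ 1 - 2 / (Fintype.card W : ℝ)
    · apply Real.le_sqrt_of_sq_le
      have h7 : 0 < 2 / (Fintype.card W : ℝ) := by positivity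
      nlinarith
    · exact (not_le.1 h6).le.trans (Real.sqrt_nonneg _)
  calc (Fintype.card W : ℝ) - 2 = ∑ _w : W, (1 - 2 / (Fintype.card W : ℝ)) := by
        rw [sum_const, card_univ, nsmul_eq_mul]
        field_simp
    _ ≤ _ := sum_le_sum fun w _ => h1 w

/-- weights in the case of few pairs -/
theorem wt_few {W ι β : Type} [Fintype W] [Fintype ι] [Fintype β] {F : SimpleGraph W}
    {H : Finset W} (S : Std F ι β H) {k : ℕ}
    (hk : k = H.card + Fintype.card ι + Fintype.card β) (hk0 : 200 ≤ k)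
    (h4 : 4 * Fintype.card β ≤ k) : (k : ℝ) - 2 ≤ ∑ w, Real.sqrt (qd F w) := by
  classical
  have hcard := S.card
  have hι := S.two_ι_le
  set n : ℝ := (Fintype.card W : ℝ) with hnd
  have hnN : Fintype.card W = k + Fintype.card β := by omega
  have hn : n = k + Fintype.card β := by
    rw [hnd]
    exact_mod_cast hnN
  have hkR : (200 : ℝ) ≤ k := by exact_mod_cast hk0
  have hβ0 : (0 : ℝ) ≤ Fintype.card β := Nat.cast_nonneg _
  have h4R : 4 * (Fintype.card β : ℝ) ≤ k := by exact_mod_cast h4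
  have hιR : 2 * (Fintype.card ι : ℝ) ≤ Fintype.card β := by exact_mod_cast hι
  have hkR' : (k : ℝ) = H.card + Fintype.card ι + Fintype.card β := by exact_mod_cast hk
  have hn0 : 0 < n := by linarith
  have hq : ∀ w, qd F w = 1 - 2 * ((tdeg F w : ℝ) + 1) / n := by
    intro w
    have h1 : (dg F w : ℝ) + tdeg F w + 1 = n := by
      rw [hnd]
      exact_mod_cast dg_tdeg F w
    unfold qd
    rw [← hnd]
    field_simp
    linarith
  have h1 : ∀ w, (if w ∈ H then 1 - 2 / n else 3 / 4) ≤ Real.sqrt (qd F w) := by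
    intro w
    split_ifs with hw
    · rw [hq, S.tdeg_hub hw]
      apply Real.le_sqrt_of_sq_le
      have h5 : 0 < 2 / n := by positivity
      have h6 : 2 / n ≤ 1 := by
        rw [div_le_one hn0]
        linarith
      have h7 : 2 * (((0 : ℕ) : ℝ) + 1) / n = 2 / n := by
        simp
      rw [h7]
      nlinarith
    · rw [hq]
      apply Real.le_sqrt_of_sq_le
      have h5 : (tdeg F w : ℝ) ≤ Fintype.card β + 1 := by exact_mod_cast S.tdeg_le w
      have h6 : 2 * ((tdeg F w : ℝ) + 1) / n ≤ 7 / 16 := by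
        rw [div_le_iff₀ hn0]
        linarith
      linarith
  have h2 : ∑ w, (if w ∈ H then 1 - 2 / n else (3 / 4 : ℝ)) =
      H.card * (1 - 2 / n) + (n - H.card) * (3 / 4) := by
    rw [sum_ite, sum_const, sum_const, nsmul_eq_mul, nsmul_eq_mul]
    have e1 : univ.filter (fun w => w ∈ H) = H := by
      ext w
      simp
    have e2 : (univ.filter (fun w => w ∉ H)).card + H.card = Fintype.card W := by
      have := card_filter_add_card_filter_not (s := (univ : Finset W)) (fun w => w ∈ H)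
      rw [e1, card_univ] at this
      omega
    have e3 : ((univ.filter (fun w => w ∉ H)).card : ℝ) = n - H.card := by
      have : ((univ.filter (fun w => w ∉ H)).card : ℝ) + H.card = n := by
        rw [hnd]
        exact_mod_cast e2
      linarith
    rw [e1, e3]
  have h3 : (k : ℝ) - 2 ≤ H.card * (1 - 2 / n) + (n - H.card) * (3 / 4) := by
    have h5 : (H.card : ℝ) ≤ n := by
      rw [hnd]
      exact_mod_cast card_le_univ H
    have h6 : (H.card : ℝ) * (2 / n) ≤ 2 := by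
      calc (H.card : ℝ) * (2 / n) ≤ n * (2 / n) := mul_le_mul_of_nonneg_right h5 (by positivity)
        _ = 2 := by field_simp
    have h7 : (H.card : ℝ) * (1 - 2 / n) = H.card - H.card * (2 / n) := by ring
    rw [h7]
    linarith
  rw [← h2] at h3
  exact h3.trans (sum_le_sum fun w _ => h1 w)

/-- many pairs, with slack -/
theorem many_slack : ∃ n₀ : ℕ, ∀ (V : Type) (_ : Fintype V) (G : SimpleGraph V) (ι β : Type)
    (_ : Fintype ι) (_ : Fintype β) (H : Finset V) (_ : Std G ι β H) (D : Drw G) (k t : ℕ),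
    D.NoAdj → k = H.card + Fintype.card ι + Fintype.card β → n₀ ≤ k →
    k ≤ 4 * Fintype.card β → (1 + 1 / 400) * (t : ℝ) ≤ (1 + 1 / 200) * (k : ℝ) →
    crK t ≤ D.cr := by
  obtain ⟨n₀, hfin⟩ := fin_asy (M := 2 * 40 / (1 / 2) + 1 / (1 / 16000000))
    (B := B0 40 (1 / 2) (1 / 16000000) * 40 ^ 4) (γ := 1 / 400) (by norm_num)
  refine ⟨max n₀ 8000000, ?_⟩
  intro V _ G ι β _ _ H S D k t hNA hk hk0 hkβ ht
  have h8 : 8000000 ≤ k := (le_max_right _ _).trans hk0
  obtain ⟨T, _, P, cl, K, hP, hP1, hclK, hL, hKk⟩ := clouds_exist S hk h8 hkβ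
  have hcard := S.card
  have hVk : k ≤ Fintype.card V := by omega
  have hV : 0 < Fintype.card V := by omega
  refine hfin (Fintype.card V) D.cr t K (((le_max_left _ _).trans hk0).trans hVk) ?_
    (ht.trans hKk)
  intro a ha
  exact mix_ineq D hNA (C := 40) (κ := 1 / 2) (η := 1 / 16000000) (by norm_num)
    (by norm_num) (by norm_num) hV ha P hP hP1 cl K hclK hL

/-- **A large part of independence number at most two.** -/
theorem coreR : ∃ ε : ℝ, 0 < ε ∧ ε ≤ 1 / 2 ∧ ∃ t₀ : ℕ, ∀ (n : ℕ) (G : SimpleGraph (Fin n))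
    (t k : ℕ), t₀ ≤ t → ¬ G.Colorable (t - 1) → ∀ A : Finset (Fin n),
    Tri (G.comap (Subtype.val : {x // x ∈ A} → Fin n)) → (1 - ε) * (t : ℝ) ≤ (k : ℝ) →
    ¬ (G.comap (Subtype.val : {x // x ∈ A} → Fin n)).Colorable (k - 1) →
    ∀ D : Drw G, crK t ≤ D.cr := by
  classical
  obtain ⟨μ, hμ, hμ1, t1, hU⟩ := coreU_inj
  obtain ⟨n₀, hmany⟩ := many_slack
  obtain ⟨N, hN⟩ := exists_nat_ge (4 / μ)
  refine ⟨min (μ / 2) (1 / 1000), lt_min (by positivity) (by norm_num),
    (min_le_right _ _).trans (by norm_num), max (max t1 (2 * n₀)) (max N 1000), ?_⟩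
  intro n G t k ht hcol A hTri hk hkcol D
  simp only [max_le_iff] at ht
  obtain ⟨⟨ht1, ht2⟩, ht3, ht4⟩ := ht
  have htR : (1000 : ℝ) ≤ t := by exact_mod_cast ht4
  have hm1 : min (μ / 2) (1 / 1000 : ℝ) ≤ μ / 2 := min_le_left _ _
  have hm2 : min (μ / 2) (1 / 1000 : ℝ) ≤ 1 / 1000 := min_le_right _ _
  have hk1 : (1 - μ / 2) * (t : ℝ) ≤ k := by nlinarith
  have hk2 : (1 - 1 / 1000) * (t : ℝ) ≤ k := by nlinarith
  have hkN : t ≤ 2 * k := by
    have : (t : ℝ) ≤ 2 * k := by linarith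
    exact_mod_cast this
  have h2μ : 2 ≤ μ / 2 * t := by
    have e1 : (N : ℝ) ≤ t := by exact_mod_cast ht3
    have e2 := hN.trans e1
    rw [div_le_iff₀ hμ] at e2
    linarith
  set F : SimpleGraph {x // x ∈ A} := G.comap (Subtype.val : {x // x ∈ A} → Fin n) with hF
  obtain ⟨A', ha, hb⟩ := exists_crit hTri (k := k) (by omega) hkcol
  set F' : SimpleGraph {x // x ∈ A'} := F.comap (Subtype.val : {x // x ∈ A'} → {x // x ∈ A})
    with hF'
  have hTri' : Tri F' := by
    intro x y z hxy hyz hxz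
    exact hTri x.1 y.1 z.1 (fun h => hxy (Subtype.ext h)) (fun h => hyz (Subtype.ext h))
      (fun h => hxz (Subtype.ext h))
  let φ : {x // x ∈ A'} → Fin n := fun x => x.1.1
  have hφ : Function.Injective φ := fun x y h => Subtype.ext (Subtype.ext h)
  have hφF : G.comap φ = F' := rfl
  have hUse : (k : ℝ) - 2 ≤ ∑ w, Real.sqrt (qd F' w) → crK t ≤ D.cr := by
    intro h
    refine hU (Fin n) {x // x ∈ A'} inferInstance inferInstance G φ hφ t ht1 hcol ?_ D
    rw [hφF]
    linarith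
  rcases std_of_crit hTri' ha hb with ⟨hc, hq⟩ | ⟨ι, β, _, _, H, ⟨S⟩, hkk⟩
  · apply hUse
    have h1 := wt_complete hq (by omega)
    rw [hc] at h1
    exact h1
  · by_cases h4 : 4 * Fintype.card β ≤ k
    · exact hUse (wt_few S hkk (by omega) h4)
    · obtain ⟨D1, hD1⟩ := exists_comap D φ hφ
      obtain ⟨D2, hD2, hNA⟩ := exists_noAdj D1
      refine le_trans (hmany {x // x ∈ A'} inferInstance F' ι β inferInstance inferInstance H S D2
        k t hNA hkk (by omega) (by omega) ?_) (hD2.trans hD1)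
      linarith

/-- frozen form -/
theorem mainR : ∃ ε : ℝ, 0 < ε ∧ ∃ t₀ : ℕ, ∀ (n : ℕ) (G : SimpleGraph (Fin n)) (t k : ℕ),
    t₀ ≤ t → ∀ A : Finset (Fin n),
    (∀ x ∈ A, ∀ y ∈ A, ∀ z ∈ A, x ≠ y → y ≠ z → x ≠ z → G.Adj x y ∨ G.Adj y z ∨ G.Adj x z) →
    (1 - ε) * (t : ℝ) ≤ (k : ℝ) →
    (k : ℕ∞) ≤ (G.comap (Subtype.val : {x : Fin n // x ∈ A} → Fin n)).chromaticNumber →
    (t : ℕ∞) ≤ G.chromaticNumber →
      ∀ (pos : Fin n → ℝ × ℝ) (γ : ∀ u v : Fin n, Path (pos u) (pos v)), IsFrz G pos γ →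
        ∃ (pos' : Fin t → ℝ × ℝ) (γ' : ∀ u v : Fin t, Path (pos' u) (pos' v)),
          IsFrz (⊤ : SimpleGraph (Fin t)) pos' γ' ∧
          (XS (⊤ : SimpleGraph (Fin t)) pos' γ').ncard ≤ (XS G pos γ).ncard := by
  obtain ⟨ε, hε, hε2, k0, h0⟩ := coreR
  refine ⟨ε, hε, max k0 2, ?_⟩
  intro n G t k ht A hTri hk hkχ hχ pos γ hf
  have ht1 : 2 ≤ t := le_trans (le_max_right _ _) ht
  have htR : (2 : ℝ) ≤ t := by exact_mod_cast ht1
  have hk1 : 1 ≤ k := by
    have : (1 : ℝ) ≤ k := by nlinarith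
    exact_mod_cast this
  refine frz G (fun D => h0 n G t k (le_trans (le_max_left _ _) ht)
    (not_col (by omega) hχ) A ?_ hk ?_ D) pos γ hf
  · intro x y z hxy hyz hxz
    exact hTri x.1 x.2 y.1 y.2 z.1 z.2 (fun h => hxy (Subtype.ext h))
      (fun h => hyz (Subtype.ext h)) (fun h => hxz (Subtype.ext h))
  · intro hc
    have h := hc.chromaticNumber_le
    have h2 : (k : ℕ∞) ≤ ((k - 1 : ℕ) : ℕ∞) := le_trans hkχ h
    have h3 : k ≤ k - 1 := by exact_mod_cast h2
    omega

end Pool.Agent.AXM
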