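import Pool.Agent.AXM.Asy
import Pool.Agent.AXM.Col

/-! # AXM SUM: the sum of the square root weights of a graph of large minimum degree -/

set_option autoImplicit false

namespace Pool.Agent.AXM

open Finset Pool.Agent.ALB

variable {V : Type} [Fintype V]

theorem dg_eq_ncard (G : SimpleGraph V) (v : V) : dg G v = {x | G.Adj v x}.ncard := by
  classical
  unfold dg
  rw [← Set.ncard_coe_finset]
  congr 1
  ext x
  simp

theorem dg_compl (G : SimpleGraph V) (v : V) : dg G v + dg Gᶜ v + 1 = Fintype.card V := by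
  classical
  have e0 : dg G v = (univ.filter (fun x => G.Adj v x)).card := by
    unfold dg
    congr
  have e1 : dg Gᶜ v = (univ.filter (fun x => Gᶜ.Adj v x)).card := by
    unfold dg
    congr
  have h1 : (univ.filter (fun x => G.Adj v x)).card + (univ.filter (fun x => ¬ G.Adj v x)).card =
      Fintype.card V := by
    rw [← card_univ]
    exact card_filter_add_card_filter_not _
  have h2 : univ.filter (fun x => ¬ G.Adj v x) = insert v (univ.filter (fun x => Gᶜ.Adj v x)) := by
    ext x
    rw [mem_insert, mem_filter, mem_filter, SimpleGraph.compl_adj]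
    constructor
    · rintro ⟨-, h⟩
      by_cases hx : x = v
      · exact Or.inl hx
      · exact Or.inr ⟨mem_univ _, Ne.symm hx, h⟩
    · rintro (h | h)
      · rw [h]
        exact ⟨mem_univ _, G.irrefl⟩
      · exact ⟨mem_univ _, h.2.2⟩
  have h3 : v ∉ univ.filter (fun x => Gᶜ.Adj v x) := by
    rw [mem_filter]
    exact fun h => Gᶜ.irrefl h.2
  rw [h2, card_insert_of_notMem h3] at h1
  omega

/-- handshake -/
theorem sum_dg (G : SimpleGraph V) : ∑ v, (dg G v : ℝ) = 2 * ((ed G).card : ℝ) := by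
  classical
  have h1 := cla_sum_ed (G := G) (fun _ => (1 : ℝ))
  rw [sum_const, nsmul_eq_mul, mul_one] at h1
  rw [h1]
  have h2 : ∀ u, ∑ v, (if G.Adj u v then (1 : ℝ) else 0) = (dg G u : ℝ) := by
    intro u
    unfold dg
    rw [card_filter]
    push_cast
    rfl
  simp only [h2]
  ring

/-- the sum of the weights -/
theorem wt_sum (G : SimpleGraph V) (hV : 0 < Fintype.card V)
    (h : ∀ v, 5 / 8 * (Fintype.card V : ℝ) ≤ (dg G v : ℝ)) :
    (Fintype.card V : ℝ) - 8 / 3 * ((ed Gᶜ).card : ℝ) / (Fintype.card V : ℝ) - 4 / 3 ≤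
      ∑ v, wt G (1 / 4) v ∧ 1 / 2 * (Fintype.card V : ℝ) ≤ ∑ v, wt G (1 / 4) v := by
  have hn : (0 : ℝ) < Fintype.card V := by exact_mod_cast hV
  have h0 : ∀ v, 1 / 4 ≤ qd G v := by
    intro v
    unfold qd
    rw [le_div_iff₀ hn]
    have := h v
    linarith
  have h1 : ∀ v, wt G (1 / 4) v = Real.sqrt (qd G v) := fun v => if_pos (h0 v)
  constructor
  · have h2 : ∀ v, 1 - 4 / 3 * (((dg Gᶜ v : ℝ) + 1) / (Fintype.card V : ℝ)) ≤ wt G (1 / 4) v := by
      intro v
      rw [h1]
      apply Real.le_sqrt_of_sq_le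
      have h3 : (dg G v : ℝ) + dg Gᶜ v + 1 = Fintype.card V := by exact_mod_cast dg_compl G v
      set s : ℝ := ((dg Gᶜ v : ℝ) + 1) / (Fintype.card V : ℝ) with hs
      have h4 : qd G v = 1 - 2 * s := by
        rw [hs]
        unfold qd
        field_simp
        linarith
      have h5 := h0 v
      have h6 : 0 ≤ s := by positivity
      rw [h4] at h5 ⊢
      nlinarith
    have h3 : ∑ v : V, (1 - 4 / 3 * (((dg Gᶜ v : ℝ) + 1) / (Fintype.card V : ℝ))) =
        (Fintype.card V : ℝ) - 8 / 3 * ((ed Gᶜ).card : ℝ) / (Fintype.card V : ℝ) - 4 / 3 := by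
      rw [sum_sub_distrib, ← mul_sum, ← sum_div, sum_add_distrib, sum_dg, sum_const, card_univ,
        nsmul_eq_mul]
      field_simp
      ring
    rw [← h3]
    exact sum_le_sum fun v _ => h2 v
  · have h2 : ∀ v, 1 / 2 ≤ wt G (1 / 4) v := by
      intro v
      rw [h1]
      apply Real.le_sqrt_of_sq_le
      have := h0 v
      linarith
    calc 1 / 2 * (Fintype.card V : ℝ) = ∑ _v : V, (1 / 2 : ℝ) := by
          rw [sum_const, card_univ, nsmul_eq_mul]
          ring
      _ ≤ _ := sum_le_sum fun v _ => h2 v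

end Pool.Agent.AXM
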