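import Pool.Agent.AXM.Big
import Pool.Agent.AXM.Ag
import Pool.Agent.AXM.Nr

/-! # AXM UM: dense subgraphs

There are `μ > 0` and `t₀` such that for `t ≥ t₀` every graph `G` that is not `(t-1)`-colourable and
has an induced subgraph `F` with `∑_{v ∈ F} sqrt ((2 d_F(v) - |F|) / |F|) ≥ (1 - μ) t` satisfies
`cr(G) ≥ cr(K_t)`. -/

set_option autoImplicit false

namespace Pool.Agent.AXM

open Finset Pool.Agent.ALB

/-- the case of many vertices -/
theorem big8 : ∃ C : ℕ, 0 < C ∧ ∃ t₀ : ℕ, ∀ (V : Type) (_ : Fintype V) (G : SimpleGraph V)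
    (D : Drw G) (t : ℕ), D.NoAdj → t₀ ≤ t → t * Fintype.card V ≤ 8 * (ed G).card →
      C * t ≤ Fintype.card V → crK t ≤ D.cr := by
  by_cases hall : ∀ a, crK a = 0
  · refine ⟨1, one_pos, 0, ?_⟩
    intro V _ G D t _ _ _ _
    rw [hall t]
    exact Nat.zero_le _
  push Not at hall
  obtain ⟨a, ha⟩ := hall
  obtain ⟨B, hB, hcr⟩ := Pool.Agent.ALC.crL ha
  refine ⟨16384 * B ^ 2, by positivity, 32 * B, ?_⟩
  intro V _ G D t hNA ht hE hn
  have hq1 : 16 * B * (t / (16 * B)) ≤ t := Nat.mul_div_le t (16 * B)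
  have hq2 : t < 16 * B * (t / (16 * B) + 1) := by
    have h1 := Nat.div_add_mod t (16 * B)
    have h2 := Nat.mod_lt t (show 0 < 16 * B by omega)
    rw [Nat.mul_add, Nat.mul_one]
    omega
  set q : ℕ := t / (16 * B) with hq
  have hq0 : 0 < q := by
    rw [hq]
    exact Nat.div_pos (by omega) (by omega)
  have h1 := hcr V inferInstance G D hNA q hq0
  have h1R : (q : ℝ) ^ 2 * ((ed G).card : ℝ) ≤ B * (Fintype.card V : ℝ) * (q : ℝ) ^ 3 + D.cr := by
    exact_mod_cast h1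
  have hER : (t : ℝ) * (Fintype.card V : ℝ) ≤ 8 * ((ed G).card : ℝ) := by exact_mod_cast hE
  have hnR : 16384 * (B : ℝ) ^ 2 * (t : ℝ) ≤ (Fintype.card V : ℝ) := by exact_mod_cast hn
  have hq1R : 16 * (B : ℝ) * (q : ℝ) ≤ t := by exact_mod_cast hq1
  have hq2R : (t : ℝ) ≤ 32 * (B : ℝ) * (q : ℝ) := by
    have h2 : t ≤ 32 * B * q := by nlinarith
    exact_mod_cast h2
  have hBR : (0 : ℝ) < B := by exact_mod_cast hB
  have hqR : (0 : ℝ) < q := by exact_mod_cast hq0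
  have htR : (0 : ℝ) ≤ t := Nat.cast_nonneg _
  have hN : (0 : ℝ) ≤ (Fintype.card V : ℝ) := Nat.cast_nonneg _
  set n : ℝ := (Fintype.card V : ℝ) with hnd
  have h2 : n * (q : ℝ) ^ 2 * t ≤ 16 * (D.cr : ℝ) := by
    have h3 : (q : ℝ) ^ 2 * ((t : ℝ) * n) ≤ (q : ℝ) ^ 2 * (8 * ((ed G).card : ℝ)) :=
      mul_le_mul_of_nonneg_left hER (by positivity)
    have h4 : n * (q : ℝ) ^ 2 * (16 * (B : ℝ) * (q : ℝ)) ≤ n * (q : ℝ) ^ 2 * t :=
      mul_le_mul_of_nonneg_left hq1R (by positivity)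
    nlinarith
  have h3 : (t : ℝ) ^ 2 ≤ 1024 * (B : ℝ) ^ 2 * (q : ℝ) ^ 2 := by
    calc (t : ℝ) ^ 2 ≤ (32 * (B : ℝ) * (q : ℝ)) ^ 2 := pow_le_pow_left₀ htR hq2R 2
      _ = _ := by ring
  have h4 : (t : ℝ) ^ 4 ≤ (D.cr : ℝ) := by
    have h5 : 16384 * (B : ℝ) ^ 2 * (t : ℝ) ^ 4 ≤ 16384 * (B : ℝ) ^ 2 * (D.cr : ℝ) := by
      calc 16384 * (B : ℝ) ^ 2 * (t : ℝ) ^ 4 =
            (16384 * (B : ℝ) ^ 2 * (t : ℝ)) * (t : ℝ) * (t : ℝ) ^ 2 := by
            ring
        _ ≤ n * (t : ℝ) * (1024 * (B : ℝ) ^ 2 * (q : ℝ) ^ 2) := by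
            refine mul_le_mul (mul_le_mul_of_nonneg_right hnR htR) h3 (by positivity) (by positivity)
        _ = 1024 * (B : ℝ) ^ 2 * (n * (q : ℝ) ^ 2 * t) := by ring
        _ ≤ 1024 * (B : ℝ) ^ 2 * (16 * (D.cr : ℝ)) := mul_le_mul_of_nonneg_left h2 (by positivity)
        _ = _ := by ring
    exact le_of_mul_le_mul_left h5 (by positivity)
  have h5 : crK t ≤ t ^ 4 := crK_le_pow t
  have h6 : (crK t : ℝ) ≤ (t : ℝ) ^ 4 := by exact_mod_cast h5
  have h7 : (crK t : ℝ) ≤ (D.cr : ℝ) := h6.trans h4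
  exact_mod_cast h7

/-- many vertices of degree more than `n / 2` -/
theorem edges_geR {V : Type} [Fintype V] (G : SimpleGraph V) (hV : 0 < Fintype.card V) {x : ℝ}
    (h : x ≤ ∑ v, Real.sqrt (qd G v)) : x * (Fintype.card V : ℝ) ≤ 4 * ((ed G).card : ℝ) := by
  classical
  have hn : (0 : ℝ) < Fintype.card V := by exact_mod_cast hV
  have h1 : ∀ v, (Fintype.card V : ℝ) / 2 * Real.sqrt (qd G v) ≤ (dg G v : ℝ) := by
    intro v
    by_cases h2 : 0 ≤ qd G v
    · have h3 : (Fintype.card V : ℝ) ≤ 2 * (dg G v : ℝ) := by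
        unfold qd at h2
        rw [le_div_iff₀ hn] at h2
        linarith
      have h4 := sqrt_qd_le_one G hV v
      have h5 := mul_le_mul_of_nonneg_left h4 (show 0 ≤ (Fintype.card V : ℝ) / 2 by positivity)
      linarith
    · rw [Real.sqrt_eq_zero_of_nonpos (not_le.1 h2).le, mul_zero]
      exact Nat.cast_nonneg _
  have h2 : (Fintype.card V : ℝ) / 2 * ∑ v, Real.sqrt (qd G v) ≤ ∑ v, (dg G v : ℝ) := by
    rw [mul_sum]
    exact sum_le_sum fun v _ => h1 v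
  rw [sum_dg] at h2
  have h3 : (Fintype.card V : ℝ) / 2 * x ≤ (Fintype.card V : ℝ) / 2 *
      ∑ v, Real.sqrt (qd G v) := mul_le_mul_of_nonneg_left h (by positivity)
  linarith

theorem sum_sqrt_le {V : Type} [Fintype V] (G : SimpleGraph V) {r : ℝ} (hr : 0 ≤ r) :
    ∑ v, Real.sqrt (qd G v) ≤ ∑ v, wt G (r ^ 2) v + r * (Fintype.card V : ℝ) := by
  calc ∑ v, Real.sqrt (qd G v) ≤ ∑ v, (wt G (r ^ 2) v + r) := by
        refine sum_le_sum fun v _ => ?_
        have h2 := sqrt_qd_le G (η := r ^ 2) v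
        rwa [Real.sqrt_sq hr] at h2
    _ = _ := by
        rw [sum_add_distrib, sum_const, card_univ, nsmul_eq_mul]
        ring

open Classical in
/-- the support -/
noncomputable def sp {V : Type} [Fintype V] (G : SimpleGraph V) (η : ℝ) : Finset V :=
  univ.filter (fun v => wt G η v ≠ 0)

theorem sum_wt_le_sp {V : Type} [Fintype V] (G : SimpleGraph V) (hV : 0 < Fintype.card V) (η : ℝ) :
    ∑ v, wt G η v ≤ ((sp G η).card : ℝ) := by
  classical
  have h1 : ∑ v, wt G η v = ∑ v ∈ sp G η, wt G η v := by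
    unfold sp
    rw [sum_filter_ne_zero]
  rw [h1]
  calc ∑ v ∈ sp G η, wt G η v ≤ ∑ _v ∈ sp G η, (1 : ℝ) := sum_le_sum fun v _ => wt_le G hV η v
    _ = _ := by rw [sum_const, nsmul_eq_mul, mul_one]

/-- few vertices in `bz`: the support is a near-clique -/
theorem mi_sp {V : Type} [Fintype V] (G : SimpleGraph V) (hV : 0 < Fintype.card V) {η s β : ℝ}
    (hs : 0 ≤ s) (hB : ((bz G η s).card : ℝ) ≤ β * (Fintype.card V : ℝ)) :
    (mi G (sp G η) : ℝ) ≤ (β + s) * (Fintype.card V : ℝ) ^ 2 + (Fintype.card V : ℝ) := by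
  classical
  have hn : (0 : ℝ) < Fintype.card V := by exact_mod_cast hV
  have h1 : mi G (sp G η) ≤ ∑ z, ((ww G η z).card + 1) := by
    have h2 : mi G (sp G η) ≤ ((univ : Finset V).sigma (fun z => insert z (ww G η z))).card := by
      unfold mi
      refine card_le_card_of_injOn (fun q => (⟨q.1, q.2⟩ : Σ _ : V, V)) ?_ ?_
      · intro q hq
        rw [mem_coe, mem_filter, mem_product] at hq
        rw [mem_coe, mem_sigma]
        refine ⟨mem_univ _, ?_⟩
        rw [mem_insert]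
        by_cases h3 : q.2 = q.1
        · exact Or.inl h3
        · refine Or.inr (mem_ww.2 ⟨mem_nb.2 ⟨h3, hq.2⟩, ?_⟩)
          have h4 := hq.1.2
          unfold sp at h4
          exact (mem_filter.1 h4).2
      · intro p _ q _ h
        simp only [Sigma.mk.injEq, heq_eq_eq] at h
        exact Prod.ext h.1 h.2
    refine h2.trans ?_
    rw [card_sigma]
    exact sum_le_sum fun z _ => card_insert_le _ _
  have h2 : ∀ z, ((ww G η z).card : ℝ) ≤ s * (Fintype.card V : ℝ) +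
      (if z ∈ bz G η s then (Fintype.card V : ℝ) else 0) := by
    intro z
    by_cases hz : z ∈ bz G η s
    · rw [if_pos hz]
      have h3 : ((ww G η z).card : ℝ) ≤ Fintype.card V := by
        exact_mod_cast card_le_univ (ww G η z)
      have h4 : 0 ≤ s * (Fintype.card V : ℝ) := by positivity
      linarith
    · rw [if_neg hz, add_zero]
      rw [mem_bz] at hz
      exact (not_le.1 hz).le
  have h3 : (mi G (sp G η) : ℝ) ≤ ∑ z, (((ww G η z).card : ℝ) + 1) := by exact_mod_cast h1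
  refine h3.trans ?_
  calc ∑ z, (((ww G η z).card : ℝ) + 1) ≤ ∑ z, (s * (Fintype.card V : ℝ) +
      (if z ∈ bz G η s then (Fintype.card V : ℝ) else 0) + 1) :=
        sum_le_sum fun z _ => by linarith [h2 z]
    _ = s * (Fintype.card V : ℝ) * (Fintype.card V : ℝ) +
        ((bz G η s).card : ℝ) * (Fintype.card V : ℝ) + (Fintype.card V : ℝ) := by
        rw [sum_add_distrib, sum_add_distrib, sum_const, sum_const, card_univ, nsmul_eq_mul,
          nsmul_eq_mul, sum_ite_mem, univ_inter, sum_const, nsmul_eq_mul]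
        ring
    _ ≤ s * (Fintype.card V : ℝ) * (Fintype.card V : ℝ) +
        (β * (Fintype.card V : ℝ)) * (Fintype.card V : ℝ) + (Fintype.card V : ℝ) := by
        have := mul_le_mul_of_nonneg_right hB hn.le
        linarith
    _ = _ := by ring

theorem mi_mono {V : Type} (G : SimpleGraph V) {T S : Finset V} (h : T ⊆ S) :
    mi G T ≤ mi G S := by
  classical
  unfold mi
  exact card_le_card (filter_subset_filter _ (product_subset_product h h))

/-- **Dense subgraphs.** -/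
theorem coreU : ∃ μ : ℝ, 0 < μ ∧ μ ≤ 1 / 4 ∧ ∃ t₀ : ℕ, ∀ (V : Type) (_ : Fintype V)
    (G : SimpleGraph V) (t : ℕ), t₀ ≤ t → ¬ G.Colorable (t - 1) → ∀ A : Finset V,
    (1 - μ) * (t : ℝ) ≤ ∑ v : {x // x ∈ A},
      Real.sqrt (qd (G.comap (Subtype.val : {x // x ∈ A} → V)) v) →
    ∀ D : Drw G, crK t ≤ D.cr := by
  classical
  obtain ⟨c, hc0, hc1, hc2⟩ := exists_limit
  rcases hc0.eq_or_lt with h0 | hpos
  · refine ⟨1 / 4, by norm_num, le_rfl, 0, ?_⟩
    intro V _ G t _ _ A _ D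
    have h1 := hc1 t
    rw [← h0, zero_mul] at h1
    have h2 : crK t = 0 := by exact_mod_cast le_antisymm h1 (Nat.cast_nonneg _)
    rw [h2]
    exact Nat.zero_le _
  have hc : Pool.Agent.ALC.Lim c := ⟨hpos, hc1, hc2⟩
  obtain ⟨τ, hτ, r₀, hnear⟩ := near hc
  obtain ⟨C, hC, t1, hbig⟩ := big8
  have hCR : (0 : ℝ) < C := by exact_mod_cast hC
  have hC1 : (1 : ℝ) ≤ C := by exact_mod_cast hC
  -- the parameters
  set ρ : ℝ := min 1 (τ / (8 * C)) with hρ
  have hρ0 : 0 < ρ := lt_min one_pos (by positivity)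
  have hρ1 : ρ ≤ 1 := min_le_left _ _
  have hρC : ρ * C ≤ τ / 8 := by
    calc ρ * C ≤ τ / (8 * C) * C := mul_le_mul_of_nonneg_right (min_le_right _ _) hCR.le
      _ = τ / 8 := by field_simp
  set s : ℝ := min 1 (τ / (8 * C ^ 2)) with hs
  have hs0 : 0 < s := lt_min one_pos (by positivity)
  have hs1 : s ≤ 1 := min_le_left _ _
  have hsC : s * C ^ 2 ≤ τ / 8 := by
    calc s * C ^ 2 ≤ τ / (8 * C ^ 2) * C ^ 2 :=
          mul_le_mul_of_nonneg_right (min_le_right _ _) (by positivity)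
      _ = τ / 8 := by field_simp
  obtain ⟨μg, hμg, hμg1, hgain⟩ := gain_asy (η := ρ ^ 2) (s := s) (β := s) (by positivity)
    (by nlinarith) hs0 hs1 hs0
  set ρ₁ : ℝ := min ρ (μg / (4 * C)) with hρ₁
  have hρ₁0 : 0 < ρ₁ := lt_min hρ0 (by positivity)
  have hρ₁C : ρ₁ * C ≤ μg / 4 := by
    calc ρ₁ * C ≤ μg / (4 * C) * C := mul_le_mul_of_nonneg_right (min_le_right _ _) hCR.le
      _ = μg / 4 := by field_simp
  have hρρ : ρ₁ ^ 2 ≤ ρ ^ 2 := pow_le_pow_left₀ hρ₁0.le (min_le_left _ _) 2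
  obtain ⟨n₀, hgain'⟩ := hgain (1 / (2 * C)) (ρ₁ ^ 2) (by positivity) (by positivity) hρρ
  set μ : ℝ := min (μg / 4) (min (τ / 8) (1 / 4)) with hμ
  have hμ0 : 0 < μ := lt_min (by positivity) (lt_min (by positivity) (by norm_num))
  have hμa : μ ≤ μg / 4 := min_le_left _ _
  have hμb : μ ≤ τ / 8 := (min_le_right _ _).trans (min_le_left _ _)
  have hμc : μ ≤ 1 / 4 := (min_le_right _ _).trans (min_le_right _ _)
  obtain ⟨N, hN⟩ := exists_nat_ge (8 * C / τ)
  refine ⟨μ, hμ0, hμc, max (max t1 (2 * n₀)) (max (r₀ + 1) (max N 10)), ?_⟩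
  intro V _ G t ht hcol A hK D
  simp only [max_le_iff] at ht
  obtain ⟨⟨ht1, ht2⟩, ht3, ht4, ht5⟩ := ht
  obtain ⟨r, rfl⟩ : ∃ r, t = r + 1 := ⟨t - 1, by omega⟩
  rw [Nat.add_sub_cancel] at hcol
  set t : ℕ := r + 1 with htd
  have htR : (10 : ℝ) ≤ t := by exact_mod_cast ht5
  set F : SimpleGraph {x // x ∈ A} := G.comap (Subtype.val : {x // x ∈ A} → V) with hF
  obtain ⟨D1, hD1⟩ := exists_comap D (Subtype.val : {x // x ∈ A} → V) Subtype.val_injective
  obtain ⟨D2, hD2, hNA⟩ := exists_noAdj D1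
  set n : ℕ := Fintype.card {x // x ∈ A} with hn
  have hK2 : (t : ℝ) / 2 ≤ ∑ v : {x // x ∈ A}, Real.sqrt (qd F v) := by nlinarith
  have hV : 0 < n := by
    rcases Nat.eq_zero_or_pos n with h | h
    · exfalso
      have hemp : IsEmpty {x // x ∈ A} := Fintype.card_eq_zero_iff.1 h
      rw [Fintype.sum_empty] at hK2
      linarith
    · exact h
  have hnR : (0 : ℝ) < n := by exact_mod_cast hV
  have hKn : ∑ v : {x // x ∈ A}, Real.sqrt (qd F v) ≤ (n : ℝ) := by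
    calc ∑ v : {x // x ∈ A}, Real.sqrt (qd F v) ≤ ∑ _v : {x // x ∈ A}, (1 : ℝ) :=
          sum_le_sum fun v _ => sqrt_qd_le_one F hV v
      _ = _ := by rw [sum_const, card_univ, nsmul_eq_mul, mul_one]
  by_cases hcase : C * t ≤ n
  · refine (hbig {x // x ∈ A} inferInstance F D2 t hNA ht1 ?_ hcase).trans (hD2.trans hD1)
    have h1 := edges_geR F hV hK2
    have h2 : (t : ℝ) * (n : ℝ) ≤ 8 * ((ed F).card : ℝ) := by
      have : (t : ℝ) / 2 * (n : ℝ) ≤ 4 * ((ed F).card : ℝ) := h1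
      linarith
    exact_mod_cast h2
  push Not at hcase
  have hcR : (n : ℝ) ≤ C * t := by exact_mod_cast hcase.le
  have hn0 : n₀ ≤ n := by
    have h1 : (t : ℝ) / 2 ≤ n := hK2.trans hKn
    have h2 : (2 * n₀ : ℝ) ≤ t := by exact_mod_cast ht2
    have h3 : (n₀ : ℝ) ≤ n := by linarith
    exact_mod_cast h3
  by_cases hB : s * (n : ℝ) ≤ ((bz F (ρ ^ 2) s).card : ℝ)
  · -- gain
    refine (hgain' {x // x ∈ A} inferInstance F D2 t hNA hn0 ?_ hB ?_).trans (hD2.trans hD1)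
    · have h1 := sum_sqrt_le F hρ₁0.le
      have h2 : ρ₁ * (n : ℝ) ≤ μg / 4 * t := by
        calc ρ₁ * (n : ℝ) ≤ ρ₁ * (C * t) := mul_le_mul_of_nonneg_left hcR hρ₁0.le
          _ = (ρ₁ * C) * t := by ring
          _ ≤ μg / 4 * t := mul_le_mul_of_nonneg_right hρ₁C (by positivity)
      have h3 : 1 / (2 * (C : ℝ)) * (n : ℝ) ≤ t / 2 := by
        rw [one_div, inv_mul_le_iff₀ (by positivity)]
        linarith
      change 1 / (2 * (C : ℝ)) * (n : ℝ) ≤ _
      have h4 : ∑ v, Real.sqrt (qd F v) ≤ ∑ v, wt F (ρ₁ ^ 2) v + ρ₁ * (n : ℝ) := h1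
      nlinarith
    · have h1 := sum_sqrt_le F hρ₁0.le
      have h2 : ρ₁ * (n : ℝ) ≤ μg / 4 * t := by
        calc ρ₁ * (n : ℝ) ≤ ρ₁ * (C * t) := mul_le_mul_of_nonneg_left hcR hρ₁0.le
          _ = (ρ₁ * C) * t := by ring
          _ ≤ μg / 4 * t := mul_le_mul_of_nonneg_right hρ₁C (by positivity)
      have h4 : ∑ v, Real.sqrt (qd F v) ≤ ∑ v, wt F (ρ₁ ^ 2) v + ρ₁ * (n : ℝ) := h1
      nlinarith
  · -- near-clique
    push Not at hB
    have h1 := mi_sp F hV hs0.le hB.le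
    have h1' : (mi F (sp F (ρ ^ 2)) : ℝ) ≤ (s + s) * (n : ℝ) ^ 2 + (n : ℝ) := h1
    have h2 : ∑ v, Real.sqrt (qd F v) ≤ ∑ v, wt F (ρ ^ 2) v + ρ * (n : ℝ) := sum_sqrt_le F hρ0.le
    have h3 := sum_wt_le_sp F hV (ρ ^ 2)
    have h4 : ρ * (n : ℝ) ≤ τ / 8 * t := by
      calc ρ * (n : ℝ) ≤ ρ * (C * t) := mul_le_mul_of_nonneg_left hcR hρ0.le
        _ = (ρ * C) * t := by ring
        _ ≤ τ / 8 * t := mul_le_mul_of_nonneg_right hρC (by positivity)
    have h5 : (1 - τ / 4) * (t : ℝ) ≤ ((sp F (ρ ^ 2)).card : ℝ) := by nlinarith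
    have h6 : (mi F (sp F (ρ ^ 2)) : ℝ) ≤ 3 / 8 * τ * (t : ℝ) ^ 2 := by
      have e1 : (n : ℝ) ^ 2 ≤ (C * t) ^ 2 := pow_le_pow_left₀ hnR.le hcR 2
      have e2 : (s + s) * (n : ℝ) ^ 2 ≤ (s + s) * (C * t) ^ 2 :=
        mul_le_mul_of_nonneg_left e1 (by positivity)
      have e3 : (s + s) * (C * (t : ℝ)) ^ 2 ≤ τ / 4 * (t : ℝ) ^ 2 := by
        calc (s + s) * (C * (t : ℝ)) ^ 2 = 2 * (s * C ^ 2) * (t : ℝ) ^ 2 := by ring
          _ ≤ 2 * (τ / 8) * (t : ℝ) ^ 2 :=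
              mul_le_mul_of_nonneg_right (by linarith) (by positivity)
          _ = _ := by ring
      have e4 : (n : ℝ) ≤ τ / 8 * (t : ℝ) ^ 2 := by
        have e5 : (N : ℝ) ≤ t := by exact_mod_cast ht4
        have e6 := hN.trans e5
        rw [div_le_iff₀ hτ] at e6
        calc (n : ℝ) ≤ C * t := hcR
          _ ≤ (t * τ / 8) * t := mul_le_mul_of_nonneg_right (by linarith) (by positivity)
          _ = _ := by ring
      linarith
    -- the set
    obtain ⟨T', hT'1, hT'2, hT'3⟩ : ∃ T' : Finset {x // x ∈ A}, T' ⊆ sp F (ρ ^ 2) ∧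
        T'.card ≤ t ∧ (1 - τ / 4) * (t : ℝ) ≤ (T'.card : ℝ) := by
      rcases Nat.lt_or_ge t (sp F (ρ ^ 2)).card with h | h
      · obtain ⟨T', e1, e2⟩ := exists_subset_card_eq (s := sp F (ρ ^ 2)) (n := t) h.le
        refine ⟨T', e1, e2.le, ?_⟩
        rw [e2]
        nlinarith
      · exact ⟨sp F (ρ ^ 2), subset_rfl, h, h5⟩
    let T : Finset V := T'.map ⟨Subtype.val, Subtype.val_injective⟩
    have hTc : T.card = T'.card := card_map _
    have hmiT : mi G T ≤ mi F T' := by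
      unfold mi
      have h7 : (T ×ˢ T).filter (fun q => ¬ G.Adj q.1 q.2) ⊆
          ((T' ×ˢ T').filter (fun q => ¬ F.Adj q.1 q.2)).image (fun q => (q.1.1, q.2.1)) := by
        intro q hq
        rw [mem_filter, mem_product, mem_map, mem_map] at hq
        obtain ⟨⟨⟨x, hx, hx'⟩, y, hy, hy'⟩, hxy⟩ := hq
        rw [mem_image]
        refine ⟨(x, y), mem_filter.2 ⟨mem_product.2 ⟨hx, hy⟩, ?_⟩, ?_⟩
        · intro h8
          apply hxy
          rw [← hx', ← hy']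
          exact h8
        · exact Prod.ext hx' hy'
      exact (card_le_card h7).trans card_image_le
    have hrR : (t : ℝ) = r + 1 := by rw [htd]; push_cast; rfl
    have hr9 : (9 : ℝ) ≤ r := by linarith
    have h7 : crK (r + 1) ≤ D.cr := by
      refine hnear V inferInstance G D r (by omega) hcol T ?_ ?_ ?_
      · rw [hTc]
        nlinarith
      · rw [hTc]
        exact hT'2
      · have e1 : (mi G T : ℝ) ≤ mi F (sp F (ρ ^ 2)) := by
          exact_mod_cast hmiT.trans (mi_mono F hT'1)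
        have e2 : 3 / 8 * τ * (t : ℝ) ^ 2 ≤ τ * (r : ℝ) ^ 2 := by
          have e3 : 3 / 8 * (t : ℝ) ^ 2 ≤ (r : ℝ) ^ 2 := by
            rw [hrR]
            nlinarith
          calc 3 / 8 * τ * (t : ℝ) ^ 2 = τ * (3 / 8 * (t : ℝ) ^ 2) := by ring
            _ ≤ τ * (r : ℝ) ^ 2 := mul_le_mul_of_nonneg_left e3 hτ.le
        linarith
    exact h7

end Pool.Agent.AXM
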